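import Pool.Agent.TH539.Cap

set_option autoImplicit false

/-!
The surface measure of the unit sphere: sets of small diameter, polar coordinates.
-/

open MeasureTheory Set ENNReal Metric
open scoped Pointwise

namespace Pool.Agent.D0H26.WF

/-- Surface measure of a set of diameter at most `R`. -/
theorem sphere_diam (m : ℕ) {Z : Set (sphere (0 : EuclideanSpace ℝ (Fin (m + 1))) 1)}
    (hZ : MeasurableSet Z) {R : ℝ} (hR : 0 < R)
    (h : ∀ θ ∈ Z, ∀ θ' ∈ Z, ‖(θ : EuclideanSpace ℝ (Fin (m + 1))) - θ'‖ ≤ R) :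
    (volume : Measure (EuclideanSpace ℝ (Fin (m + 1)))).toSphere Z
      ≤ ENNReal.ofReal ((m + 1) * 2 ^ (m + 1) * R ^ m) := by
  rcases Z.eq_empty_or_nonempty with h0 | ⟨θ0, hθ0⟩
  · rw [h0]; simp
  set ω : EuclideanSpace ℝ (Fin (m + 1)) := (θ0 : EuclideanSpace ℝ (Fin (m + 1))) with hω
  have hω1 : ‖ω‖ = 1 := by simp [hω]
  rw [Measure.toSphere_apply' _ hZ, finrank_euclideanSpace_fin]
  have hsub : Ioo (0:ℝ) 1 • ((↑) '' Z : Set (EuclideanSpace ℝ (Fin (m + 1))))
      ⊆ (fun y => (1 / 2 : ℝ) • y) ⁻¹' Pool.Agent.TH539.tube (R / 2) ω 0 := by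
    intro y hy
    rw [Set.mem_smul] at hy
    obtain ⟨t, ht, x, ⟨θ, hθ, rfl⟩, rfl⟩ := hy
    set x : EuclideanSpace ℝ (Fin (m + 1)) := (θ : EuclideanSpace ℝ (Fin (m + 1))) with hx
    have hx1 : ‖x‖ = 1 := by simp [hx]
    have hin : |inner ℝ x ω| ≤ 1 := by
      calc |inner ℝ x ω| ≤ ‖x‖ * ‖ω‖ := abs_real_inner_le_norm _ _
        _ = 1 := by rw [hx1, hω1, one_mul]
    have e0 : inner ℝ ((1 / 2 : ℝ) • (t • x) - 0) ω = (1 / 2 * t) * inner ℝ x ω := by
      rw [sub_zero, smul_smul, inner_smul_left]; simp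
    constructor
    · show |inner ℝ ((1 / 2 : ℝ) • (t • x) - 0) ω| ≤ 1 / 2
      rw [e0, abs_mul, abs_of_pos (by linarith [ht.1])]
      nlinarith [ht.1, ht.2, abs_nonneg (inner ℝ x ω)]
    · show ‖((1 / 2 : ℝ) • (t • x) - 0) -
        (inner ℝ ((1 / 2 : ℝ) • (t • x) - 0) ω : ℝ) • ω‖ ≤ R / 2
      rw [e0]
      have e1 : ((1 / 2 : ℝ) • (t • x) - 0) - ((1 / 2 * t) * inner ℝ x ω : ℝ) • ω
          = (1 / 2 * t) • (x - (inner ℝ x ω : ℝ) • ω) := by
        rw [sub_zero, smul_smul, smul_sub, smul_smul]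
      rw [e1, norm_smul, Real.norm_eq_abs, abs_of_pos (by linarith [ht.1])]
      have e2 : ‖x - (inner ℝ x ω : ℝ) • ω‖ ^ 2 ≤ ‖x - ω‖ ^ 2 := by
        rw [@norm_sub_sq_real, @norm_sub_sq_real, inner_smul_right, norm_smul, mul_pow, hω1, hx1,
          Real.norm_eq_abs, sq_abs]
        nlinarith [sq_nonneg (inner ℝ x ω - 1)]
      have e3 : ‖x - (inner ℝ x ω : ℝ) • ω‖ ≤ ‖x - ω‖ := le_of_sq_le_sq e2 (norm_nonneg _)
      have e4 : ‖x - ω‖ ≤ R := h θ hθ θ0 hθ0
      have e5 := norm_nonneg (x - (inner ℝ x ω : ℝ) • ω)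
      nlinarith [ht.1, ht.2]
  have hvol : volume (Ioo (0:ℝ) 1 • ((↑) '' Z : Set (EuclideanSpace ℝ (Fin (m + 1)))))
      ≤ ENNReal.ofReal (2 ^ (m + 1) * R ^ m) := by
    calc _ ≤ volume ((fun y => (1 / 2 : ℝ) • y) ⁻¹' Pool.Agent.TH539.tube (R / 2) ω 0) :=
          measure_mono hsub
      _ = ENNReal.ofReal (2 ^ (m + 1)) * volume (Pool.Agent.TH539.tube (R / 2) ω 0) := by
          rw [Measure.addHaar_preimage_smul _ (by norm_num : (1 / 2 : ℝ) ≠ 0),
            finrank_euclideanSpace_fin]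
          congr 2
          rw [abs_of_pos (by positivity)]
          simp
      _ ≤ ENNReal.ofReal (2 ^ (m + 1)) * ENNReal.ofReal ((2 * (R / 2)) ^ m) := by
          gcongr
          exact Pool.Agent.TH539.volume_tube_le (by linarith) hω1
      _ = _ := by
          rw [← ENNReal.ofReal_mul (by positivity)]
          congr 2
          ring
  calc ((m + 1 : ℕ) : ℝ≥0∞) * volume (Ioo (0:ℝ) 1 •
        ((↑) '' Z : Set (EuclideanSpace ℝ (Fin (m + 1)))))
      ≤ ENNReal.ofReal (m + 1) * ENNReal.ofReal (2 ^ (m + 1) * R ^ m) := by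
        gcongr
        rw [← ENNReal.ofReal_natCast]
        push_cast
        exact le_rfl
    _ = _ := by
        rw [← ENNReal.ofReal_mul (by positivity)]
        congr 1
        ring

/-- Polar coordinates, radius outside. -/
theorem polar_out (m : ℕ) {f : EuclideanSpace ℝ (Fin (m + 1)) → ℝ≥0∞} (hf : Measurable f) :
    ∫⁻ x, f x = ∫⁻ r in Ioi (0:ℝ), ENNReal.ofReal (r ^ m) *
      ∫⁻ θ : sphere (0 : EuclideanSpace ℝ (Fin (m + 1))) 1,
        f (r • (θ : EuclideanSpace ℝ (Fin (m + 1))))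
        ∂((volume : Measure (EuclideanSpace ℝ (Fin (m + 1)))).toSphere) := by
  have hfr : Module.finrank ℝ (EuclideanSpace ℝ (Fin (m + 1))) - 1 = m := by
    rw [finrank_euclideanSpace_fin]; rfl
  have h1 : ∫⁻ x, f x = ∫⁻ x : ({0}ᶜ : Set (EuclideanSpace ℝ (Fin (m + 1)))), f x
      ∂((volume : Measure (EuclideanSpace ℝ (Fin (m + 1)))).comap (↑)) := by
    rw [lintegral_subtype_comap (measurableSet_singleton
      (0 : EuclideanSpace ℝ (Fin (m + 1)))).compl, restrict_compl_singleton]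
  have hmp := (volume :
    Measure (EuclideanSpace ℝ (Fin (m + 1)))).measurePreserving_homeomorphUnitSphereProd
  rw [hfr] at hmp
  have h2 := hmp.lintegral_comp_emb (Homeomorph.measurableEmbedding _)
    (fun p => f ((p.2 : ℝ) • (p.1 : EuclideanSpace ℝ (Fin (m + 1)))))
  have h3 : ∀ x : ({0}ᶜ : Set (EuclideanSpace ℝ (Fin (m + 1)))),
      f (((homeomorphUnitSphereProd (EuclideanSpace ℝ (Fin (m + 1))) x).2 : ℝ) •
      ((homeomorphUnitSphereProd (EuclideanSpace ℝ (Fin (m + 1))) x).1 :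
        EuclideanSpace ℝ (Fin (m + 1)))) = f x := by
    intro x
    have := (homeomorphUnitSphereProd (EuclideanSpace ℝ (Fin (m + 1)))).symm_apply_apply x
    have h4 : ((homeomorphUnitSphereProd (EuclideanSpace ℝ (Fin (m + 1))) x).2 : ℝ) •
        ((homeomorphUnitSphereProd (EuclideanSpace ℝ (Fin (m + 1))) x).1 :
          EuclideanSpace ℝ (Fin (m + 1))) = x := by
      conv_rhs => rw [← this]
      rfl
    simp only [h4]
  simp only [h3] at h2
  have hm2 : Measurable (fun p : sphere (0 : EuclideanSpace ℝ (Fin (m + 1))) 1 × Ioi (0:ℝ) =>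
      f ((p.2 : ℝ) • (p.1 : EuclideanSpace ℝ (Fin (m + 1))))) := by
    apply hf.comp
    exact (measurable_subtype_coe.comp measurable_snd).smul
      (measurable_subtype_coe.comp measurable_fst)
  rw [h1, h2, lintegral_prod _ hm2.aemeasurable]
  have h5 : ∀ θ : sphere (0 : EuclideanSpace ℝ (Fin (m + 1))) 1,
      ∫⁻ r : Ioi (0:ℝ), f ((r : ℝ) • (θ : EuclideanSpace ℝ (Fin (m + 1))))
        ∂(Measure.volumeIoiPow m)
      = ∫⁻ r in Ioi (0:ℝ), ENNReal.ofReal (r ^ m) *
        f (r • (θ : EuclideanSpace ℝ (Fin (m + 1)))) := by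
    intro θ
    unfold Measure.volumeIoiPow
    have hm3 : Measurable (fun r : Ioi (0:ℝ) =>
        f ((r : ℝ) • (θ : EuclideanSpace ℝ (Fin (m + 1))))) :=
      hf.comp (measurable_subtype_coe.smul_const _)
    rw [lintegral_withDensity_eq_lintegral_mul _ (by fun_prop) hm3]
    rw [← lintegral_subtype_comap measurableSet_Ioi]
    rfl
  simp_rw [h5]
  have hm6 : Measurable (fun q : sphere (0 : EuclideanSpace ℝ (Fin (m + 1))) 1 × ℝ =>
      ENNReal.ofReal (q.2 ^ m) * f (q.2 • (q.1 : EuclideanSpace ℝ (Fin (m + 1))))) := by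
    apply Measurable.mul
    · fun_prop
    · apply hf.comp
      exact measurable_snd.smul (measurable_subtype_coe.comp measurable_fst)
  rw [lintegral_lintegral_swap hm6.aemeasurable]
  apply lintegral_congr
  intro r
  have hm7 : Measurable (fun θ : sphere (0 : EuclideanSpace ℝ (Fin (m + 1))) 1 =>
      f (r • (θ : EuclideanSpace ℝ (Fin (m + 1))))) :=
    hf.comp (measurable_subtype_coe.const_smul r)
  rw [lintegral_const_mul _ hm7]

end Pool.Agent.D0H26.WF
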