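import Mathlib

set_option autoImplicit false

/-!
An ordered form of the Schur test: a positive operator whose kernel `k` satisfies the bound
`∫_{τ y ≤ τ y'} ∫ k y x * k y' x ≤ K` only on one side of an ordering of the target space is of
restricted type, and bounded in `L^p` for `p > 2`.
-/

open MeasureTheory Set ENNReal

namespace Pool.Agent.D0H26.WF

/-- Layer cake formula for one number. -/
theorem layer {q : ℝ} (hq : 0 < q) (x : ℝ≥0∞) :
    ∫⁻ l in Ioi (0:ℝ), (if ENNReal.ofReal l < x then ENNReal.ofReal (q * l ^ (q - 1)) else 0)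
      = x ^ q := by
  have hfin : ∀ t : ℝ, 0 ≤ t → ∫⁻ l in Ioi (0:ℝ),
      (if ENNReal.ofReal l < ENNReal.ofReal t then ENNReal.ofReal (q * l ^ (q - 1)) else 0)
      = ENNReal.ofReal t ^ q := by
    intro t ht
    rcases ht.eq_or_lt with h0 | h0
    · rw [← h0]
      simp [ENNReal.zero_rpow_of_pos hq]
    have h1 : ∫⁻ l in Ioi (0:ℝ),
        (if ENNReal.ofReal l < ENNReal.ofReal t then ENNReal.ofReal (q * l ^ (q - 1)) else 0)
        = ∫⁻ l in Ioc (0:ℝ) t, ENNReal.ofReal (q * l ^ (q - 1)) := by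
      have e0 : ∫⁻ l in Ioc (0:ℝ) t, ENNReal.ofReal (q * l ^ (q - 1))
          = ∫⁻ l in Ioo (0:ℝ) t, ENNReal.ofReal (q * l ^ (q - 1)) :=
        setLIntegral_congr Ioo_ae_eq_Ioc.symm
      rw [e0, ← lintegral_indicator measurableSet_Ioi, ← lintegral_indicator measurableSet_Ioo]
      congr 1
      ext l
      by_cases hl : 0 < l
      · rw [indicator_of_mem (by exact hl)]
        by_cases hlt : l < t
        · rw [indicator_of_mem (by exact ⟨hl, hlt⟩), if_pos]
          exact (ENNReal.ofReal_lt_ofReal_iff h0).2 hlt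
        · rw [indicator_of_notMem (fun h => hlt h.2), if_neg]
          rw [ENNReal.ofReal_lt_ofReal_iff h0]
          exact hlt
      · rw [indicator_of_notMem (by exact hl), indicator_of_notMem (fun h => hl h.1)]
    have hint : IntervalIntegrable (fun l : ℝ => q * l ^ (q - 1)) volume 0 t :=
      (intervalIntegral.intervalIntegrable_rpow' (by linarith)).const_mul q
    have hval : ∫ l in (0:ℝ)..t, q * l ^ (q - 1) = t ^ q := by
      rw [intervalIntegral.integral_const_mul, integral_rpow (Or.inl (by linarith))]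
      have : q - 1 + 1 = q := by ring
      rw [this, Real.zero_rpow hq.ne', sub_zero]
      field_simp
    rw [h1, ← ofReal_integral_eq_lintegral_ofReal, ← intervalIntegral.integral_of_le ht, hval,
      ENNReal.ofReal_rpow_of_nonneg ht hq.le]
    · exact (intervalIntegrable_iff_integrableOn_Ioc_of_le ht).1 hint
    · filter_upwards [ae_restrict_mem measurableSet_Ioc] with l hl
      have := hl.1
      positivity
  rcases eq_or_ne x ∞ with hx | hx
  · subst hx
    rw [ENNReal.top_rpow_of_pos hq]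
    by_contra hne
    set I := ∫⁻ l in Ioi (0:ℝ),
      (if ENNReal.ofReal l < (∞ : ℝ≥0∞) then ENNReal.ofReal (q * l ^ (q - 1)) else 0) with hI
    have hle : ∀ t : ℝ, 0 ≤ t → ENNReal.ofReal t ^ q ≤ I := by
      intro t ht
      rw [← hfin t ht]
      apply lintegral_mono
      intro l
      by_cases hl : ENNReal.ofReal l < ENNReal.ofReal t
      · simp only [if_pos hl]
        rw [if_pos (hl.trans ENNReal.ofReal_lt_top)]
      · simp only [if_neg hl]
        exact zero_le
    have h2 := hle ((I.toReal + 1) ^ (1 / q)) (by positivity)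
    rw [ENNReal.ofReal_rpow_of_nonneg (by positivity) hq.le, ← Real.rpow_mul (by positivity),
      one_div_mul_cancel hq.ne', Real.rpow_one] at h2
    have h3 : I = ENNReal.ofReal I.toReal := (ENNReal.ofReal_toReal hne).symm
    rw [h3] at h2
    have h4 := (ENNReal.ofReal_le_ofReal_iff ENNReal.toReal_nonneg).1 h2
    rw [ENNReal.toReal_ofReal ENNReal.toReal_nonneg] at h4
    linarith
  · have := hfin x.toReal ENNReal.toReal_nonneg
    rw [ENNReal.ofReal_toReal hx] at this
    exact this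

section

variable {X Y : Type*} [MeasurableSpace X] [MeasurableSpace Y] {μ : Measure X} {ν : Measure Y}

/-- The operator with kernel `k`. -/
noncomputable def Op (μ : Measure X) (k : Y → X → ℝ≥0∞) (F : X → ℝ≥0∞) (y : Y) : ℝ≥0∞ :=
  ∫⁻ x, k y x * F x ∂μ

theorem measurable_Op [SFinite μ] {k : Y → X → ℝ≥0∞} (hk : Measurable (Function.uncurry k))
    {F : X → ℝ≥0∞} (hF : Measurable F) : Measurable (Op μ k F) := by
  have : Measurable (fun q : Y × X => k q.1 q.2 * F q.2) := hk.mul (hF.comp measurable_snd)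
  exact this.lintegral_prod_right'

theorem cs (μ : Measure X) {f g : X → ℝ≥0∞} (hf : AEMeasurable f μ) (hg : AEMeasurable g μ) :
    (∫⁻ x, f x * g x ∂μ) ^ 2 ≤ (∫⁻ x, f x ^ 2 ∂μ) * ∫⁻ x, g x ^ 2 ∂μ := by
  have h := ENNReal.lintegral_mul_le_Lp_mul_Lq μ (p := 2) (q := 2)
    (by constructor <;> norm_num) hf hg
  have e : ∀ y : ℝ≥0∞, (y ^ (1 / 2 : ℝ)) ^ 2 = y := by
    intro y
    rw [← ENNReal.rpow_natCast, ← ENNReal.rpow_mul]
    norm_num
  calc (∫⁻ x, f x * g x ∂μ) ^ 2
      ≤ ((∫⁻ x, f x ^ (2:ℝ) ∂μ) ^ (1 / 2 : ℝ) * (∫⁻ x, g x ^ (2:ℝ) ∂μ) ^ (1 / 2 : ℝ)) ^ 2 := by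
        gcongr
        exact h
    _ = (∫⁻ x, f x ^ (2:ℝ) ∂μ) * ∫⁻ x, g x ^ (2:ℝ) ∂μ := by rw [mul_pow, e, e]
    _ = _ := by
        congr 1 <;>
        · congr 1
          ext x
          rw [← ENNReal.rpow_natCast]
          norm_num

/-- The restricted estimate. -/
theorem restricted [SFinite μ] [SFinite ν] {k : Y → X → ℝ≥0∞}
    (hk : Measurable (Function.uncurry k))
    {τ : Y → ℝ} (hτ : Measurable τ) {K : ℝ≥0∞}
    (hK : ∀ y, ∫⁻ y' in {y' | τ y ≤ τ y'}, ∫⁻ x, k y x * k y' x ∂μ ∂ν ≤ K)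
    {F : X → ℝ≥0∞} (hF : Measurable F) {Ω : Set Y} (hΩ : MeasurableSet Ω) :
    (∫⁻ y in Ω, Op μ k F y ∂ν) ^ 2 ≤ 2 * K * ν Ω * ∫⁻ x, F x ^ 2 ∂μ := by
  set ν' := ν.restrict Ω with hν'
  have hkx : ∀ y, Measurable (k y) := fun y => hk.comp measurable_prodMk_left
  set m : X → ℝ≥0∞ := fun x => ∫⁻ y, k y x ∂ν' with hm
  have hkswap : Measurable (fun q : X × Y => k q.2 q.1) := hk.comp measurable_swap
  have hmm : Measurable m := hkswap.lintegral_prod_right'
  have h1 : ∫⁻ y, Op μ k F y ∂ν' = ∫⁻ x, F x * m x ∂μ := by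
    unfold Op
    have hme : Measurable (fun q : Y × X => k q.1 q.2 * F q.2) := hk.mul (hF.comp measurable_snd)
    rw [lintegral_lintegral_swap hme.aemeasurable]
    apply lintegral_congr
    intro x
    have hky : Measurable (fun y => k y x) := hk.comp measurable_prodMk_right
    rw [lintegral_mul_const _ hky, mul_comm]
  have hker : Measurable (fun q : Y × Y => ∫⁻ x, k q.1 x * k q.2 x ∂μ) := by
    have : Measurable (fun q : (Y × Y) × X => k q.1.1 q.2 * k q.1.2 q.2) :=
      (hk.comp (g := Function.uncurry k) (f := fun q : (Y × Y) × X => (q.1.1, q.2))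
        (by fun_prop)).mul
      (hk.comp (g := Function.uncurry k) (f := fun q : (Y × Y) × X => (q.1.2, q.2))
        (by fun_prop))
    exact this.lintegral_prod_right'
  have h2 : ∫⁻ x, m x ^ 2 ∂μ = ∫⁻ y, ∫⁻ y', ∫⁻ x, k y x * k y' x ∂μ ∂ν' ∂ν' := by
    have e1 : ∀ x, m x ^ 2 = ∫⁻ y, ∫⁻ y', k y x * k y' x ∂ν' ∂ν' := by
      intro x
      have hky : Measurable (fun y => k y x) := hk.comp measurable_prodMk_right
      simp_rw [lintegral_const_mul _ hky]
      rw [lintegral_mul_const _ hky, sq]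
    simp_rw [e1]
    have hm3 : Measurable (fun q : X × Y => ∫⁻ y', k q.2 q.1 * k y' q.1 ∂ν') := by
      have : Measurable (fun q : (X × Y) × Y => k q.1.2 q.1.1 * k q.2 q.1.1) :=
        (hk.comp (g := Function.uncurry k) (f := fun q : (X × Y) × Y => (q.1.2, q.1.1))
          (by fun_prop)).mul
        (hk.comp (g := Function.uncurry k) (f := fun q : (X × Y) × Y => (q.2, q.1.1))
          (by fun_prop))
      exact this.lintegral_prod_right'
    rw [lintegral_lintegral_swap hm3.aemeasurable]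
    apply lintegral_congr
    intro y
    have hm4 : Measurable (fun q : X × Y => k y q.1 * k q.2 q.1) :=
      ((hkx y).comp measurable_fst).mul hkswap
    rw [lintegral_lintegral_swap hm4.aemeasurable]
  have hset : MeasurableSet {q : Y × Y | τ q.1 ≤ τ q.2} :=
    measurableSet_le (hτ.comp measurable_fst) (hτ.comp measurable_snd)
  set G : Y × Y → ℝ≥0∞ := fun q => ∫⁻ x, k q.1 x * k q.2 x ∂μ with hG
  set H : Y × Y → ℝ≥0∞ := {q : Y × Y | τ q.1 ≤ τ q.2}.indicator G with hH
  have hHm : Measurable H := hker.indicator hset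
  have hsym : ∀ y y', G (y, y') = G (y', y) := by
    intro y y'
    simp only [hG]
    apply lintegral_congr
    intro x
    rw [mul_comm]
  have hGH : ∀ y y', G (y, y') ≤ H (y, y') + H (y', y) := by
    intro y y'
    rcases le_total (τ y) (τ y') with h | h
    · have : H (y, y') = G (y, y') := indicator_of_mem (by exact h) _
      rw [this]; exact le_self_add
    · have : H (y', y) = G (y', y) := indicator_of_mem (by exact h) _
      rw [this, hsym y y']; exact le_add_self
  have h3 : ∫⁻ y, ∫⁻ y', G (y, y') ∂ν' ∂ν' ≤ 2 * (K * ν Ω) := by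
    have hone : ∫⁻ y, ∫⁻ y', H (y, y') ∂ν' ∂ν' ≤ K * ν Ω := by
      calc ∫⁻ y, ∫⁻ y', H (y, y') ∂ν' ∂ν' ≤ ∫⁻ _, K ∂ν' := by
            apply lintegral_mono
            intro y
            have hs : MeasurableSet {y' | τ y ≤ τ y'} := measurableSet_le measurable_const hτ
            calc ∫⁻ y', H (y, y') ∂ν' = ∫⁻ y', {y' | τ y ≤ τ y'}.indicator
                  (fun y' => G (y, y')) y' ∂ν' := by
                  apply lintegral_congr
                  intro y'
                  simp only [hH]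
                  by_cases h : τ y ≤ τ y'
                  · rw [indicator_of_mem (by exact h), indicator_of_mem (by exact h)]
                  · rw [indicator_of_notMem (by exact h), indicator_of_notMem (by exact h)]
              _ ≤ ∫⁻ y', {y' | τ y ≤ τ y'}.indicator (fun y' => G (y, y')) y' ∂ν :=
                  lintegral_mono' Measure.restrict_le_self le_rfl
              _ = ∫⁻ y' in {y' | τ y ≤ τ y'}, G (y, y') ∂ν := lintegral_indicator hs _
              _ ≤ K := hK y
        _ = K * ν Ω := by rw [lintegral_const, hν', Measure.restrict_apply_univ]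
    have htwo : ∫⁻ y, ∫⁻ y', H (y', y) ∂ν' ∂ν' = ∫⁻ y, ∫⁻ y', H (y, y') ∂ν' ∂ν' := by
      rw [lintegral_lintegral_swap]
      exact (hHm.comp measurable_swap).aemeasurable
    calc ∫⁻ y, ∫⁻ y', G (y, y') ∂ν' ∂ν'
        ≤ ∫⁻ y, ∫⁻ y', (H (y, y') + H (y', y)) ∂ν' ∂ν' := by
          apply lintegral_mono; intro y
          apply lintegral_mono; intro y'
          exact hGH y y'
      _ = ∫⁻ y, (∫⁻ y', H (y, y') ∂ν' + ∫⁻ y', H (y', y) ∂ν') ∂ν' := by
          apply lintegral_congr; intro y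
          exact lintegral_add_left (hHm.comp measurable_prodMk_left) _
      _ = ∫⁻ y, ∫⁻ y', H (y, y') ∂ν' ∂ν' + ∫⁻ y, ∫⁻ y', H (y', y) ∂ν' ∂ν' :=
          lintegral_add_left hHm.lintegral_prod_right' _
      _ ≤ K * ν Ω + K * ν Ω := by rw [htwo]; gcongr
      _ = _ := by rw [two_mul]
  calc (∫⁻ y in Ω, Op μ k F y ∂ν) ^ 2 = (∫⁻ x, F x * m x ∂μ) ^ 2 := by rw [h1]
    _ ≤ (∫⁻ x, F x ^ 2 ∂μ) * ∫⁻ x, m x ^ 2 ∂μ := cs μ hF.aemeasurable hmm.aemeasurable
    _ ≤ (∫⁻ x, F x ^ 2 ∂μ) * (2 * (K * ν Ω)) := by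
        rw [h2]; gcongr
    _ = _ := by ring

/-- The weak type estimate. -/
theorem weak [SFinite μ] [IsFiniteMeasure ν] {k : Y → X → ℝ≥0∞}
    (hk : Measurable (Function.uncurry k))
    {τ : Y → ℝ} (hτ : Measurable τ) {K R : ℝ≥0∞} (hR0 : R ≠ 0) (hRt : R ≠ ∞)
    (hR : ∀ y, ∫⁻ x, k y x ∂μ ≤ R)
    (hK : ∀ y, ∫⁻ y' in {y' | τ y ≤ τ y'}, ∫⁻ x, k y x * k y' x ∂μ ∂ν ≤ K)
    {F : X → ℝ≥0∞} (hF : Measurable F) {l : ℝ} (hl : 0 < l) :
    ENNReal.ofReal (l ^ 2) * ν {y | ENNReal.ofReal l < Op μ k F y}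
      ≤ 8 * K * ∫⁻ x in {x | ENNReal.ofReal l < 2 * R * F x}, F x ^ 2 ∂μ := by
  have h2R0 : 2 * R ≠ 0 := mul_ne_zero (by norm_num) hR0
  have h2Rt : 2 * R ≠ ∞ := ENNReal.mul_ne_top (by norm_num) hRt
  set S : Set X := {x | ENNReal.ofReal l < 2 * R * F x} with hS
  have hSm : MeasurableSet S := measurableSet_lt measurable_const (hF.const_mul _)
  set F1 := S.indicator F with hF1
  set F2 := Sᶜ.indicator F with hF2
  have hF1m : Measurable F1 := hF.indicator hSm
  have hF2m : Measurable F2 := hF.indicator hSm.compl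
  have hadd : ∀ x, F x = F1 x + F2 x := by
    intro x
    by_cases hx : x ∈ S
    · rw [hF1, hF2, indicator_of_mem hx, indicator_of_notMem (by simpa using hx), add_zero]
    · rw [hF1, hF2, indicator_of_notMem hx, indicator_of_mem (by exact hx), zero_add]
  set lam := ENNReal.ofReal l with hlam
  have hlam0 : lam ≠ 0 := by simpa [hlam] using hl
  have hlamt : lam ≠ ∞ := ENNReal.ofReal_ne_top
  have hF2le : ∀ x, F2 x ≤ lam / (2 * R) := by
    intro x
    by_cases hx : x ∈ S
    · rw [hF2, indicator_of_notMem (by simpa using hx)]; exact zero_le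
    · rw [hF2, indicator_of_mem (by exact hx)]
      have : 2 * R * F x ≤ lam := not_lt.1 hx
      rw [ENNReal.le_div_iff_mul_le (Or.inl h2R0) (Or.inl h2Rt)]
      rw [mul_comm]; exact this
  have hA2 : ∀ y, Op μ k F2 y ≤ lam / 2 := by
    intro y
    calc Op μ k F2 y ≤ ∫⁻ x, k y x * (lam / (2 * R)) ∂μ := by
          unfold Op
          gcongr with x
          exact hF2le x
      _ = (∫⁻ x, k y x ∂μ) * (lam / (2 * R)) :=
          lintegral_mul_const _ (hk.comp measurable_prodMk_left)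
      _ ≤ R * (lam / (2 * R)) := by gcongr; exact hR y
      _ = lam / 2 := by
          rw [ENNReal.div_eq_inv_mul, ENNReal.mul_inv (Or.inl (by norm_num)) (Or.inl (by norm_num)),
            ENNReal.div_eq_inv_mul]
          calc R * (2⁻¹ * R⁻¹ * lam) = (R * R⁻¹) * (2⁻¹ * lam) := by ring
            _ = _ := by rw [ENNReal.mul_inv_cancel hR0 hRt, one_mul]
  have hA : ∀ y, Op μ k F y = Op μ k F1 y + Op μ k F2 y := by
    intro y
    unfold Op
    have hky : Measurable (k y) := hk.comp measurable_prodMk_left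
    have hm1 : Measurable (fun x => k y x * F1 x) := hky.mul hF1m
    rw [← lintegral_add_left hm1]
    apply lintegral_congr
    intro x
    rw [hadd x, mul_add]
  set Ω : Set Y := {y | lam / 2 < Op μ k F1 y} with hΩ
  have hΩm : MeasurableSet Ω := measurableSet_lt measurable_const (measurable_Op hk hF1m)
  have hsub : {y | lam < Op μ k F y} ⊆ Ω := by
    intro y hy
    by_contra hcon
    have h1 : Op μ k F1 y ≤ lam / 2 := not_lt.1 hcon
    have h2 : Op μ k F y ≤ lam := by
      rw [hA y, ← ENNReal.add_halves lam]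
      exact add_le_add h1 (hA2 y)
    exact absurd hy (not_lt.2 h2)
  have hcheb : lam / 2 * ν Ω ≤ ∫⁻ y in Ω, Op μ k F1 y ∂ν := by
    calc lam / 2 * ν Ω = ∫⁻ _ in Ω, lam / 2 ∂ν := by simp
      _ ≤ _ := setLIntegral_mono' hΩm fun y hy => le_of_lt hy
  have hr := restricted (μ := μ) (ν := ν) hk hτ hK hF1m hΩm
  have hint : ∫⁻ x, F1 x ^ 2 ∂μ = ∫⁻ x in S, F x ^ 2 ∂μ := by
    rw [← lintegral_indicator hSm]
    apply lintegral_congr
    intro x
    by_cases hx : x ∈ S
    · rw [hF1, indicator_of_mem hx, indicator_of_mem hx]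
    · rw [hF1, indicator_of_notMem hx, indicator_of_notMem hx]; simp
  rw [hint] at hr
  set J := ∫⁻ x in S, F x ^ 2 ∂μ with hJ
  have h5 : (lam / 2) ^ 2 * ν Ω ^ 2 ≤ 2 * K * ν Ω * J := by
    rw [← mul_pow]
    exact (pow_le_pow_left' hcheb 2).trans hr
  have h6 : (lam / 2) ^ 2 * ν Ω ≤ 2 * K * J := by
    rcases eq_or_ne (ν Ω) 0 with h0 | h0
    · rw [h0]; simp
    have ht : ν Ω ≠ ∞ := measure_ne_top _ _
    have h7 : ((lam / 2) ^ 2 * ν Ω) * ν Ω ≤ (2 * K * J) * ν Ω := by
      calc ((lam / 2) ^ 2 * ν Ω) * ν Ω = (lam / 2) ^ 2 * ν Ω ^ 2 := by ring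
        _ ≤ 2 * K * ν Ω * J := h5
        _ = _ := by ring
    exact (ENNReal.mul_le_mul_iff_left h0 ht).1 h7
  have e1 : ENNReal.ofReal (l ^ 2) = 4 * (lam / 2) ^ 2 := by
    have : lam / 2 = ENNReal.ofReal (l / 2) := by
      rw [hlam, ENNReal.ofReal_div_of_pos (by norm_num)]; simp
    have e4 : (4 : ℝ≥0∞) = ENNReal.ofReal 4 := by simp
    rw [this, ← ENNReal.ofReal_pow (by positivity), e4,
      ← ENNReal.ofReal_mul (by norm_num)]
    congr 1
    ring
  calc ENNReal.ofReal (l ^ 2) * ν {y | lam < Op μ k F y}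
      ≤ 4 * (lam / 2) ^ 2 * ν Ω := by
        rw [e1]; gcongr
    _ = 4 * ((lam / 2) ^ 2 * ν Ω) := by ring
    _ ≤ 4 * (2 * K * J) := by gcongr
    _ = _ := by ring

/-- **The ordered Schur test.** -/
theorem oschur [SFinite μ] [IsFiniteMeasure ν] {k : Y → X → ℝ≥0∞}
    (hk : Measurable (Function.uncurry k))
    {τ : Y → ℝ} (hτ : Measurable τ) {K R : ℝ≥0∞} (hR0 : R ≠ 0) (hRt : R ≠ ∞)
    (hR : ∀ y, ∫⁻ x, k y x ∂μ ≤ R)
    (hK : ∀ y, ∫⁻ y' in {y' | τ y ≤ τ y'}, ∫⁻ x, k y x * k y' x ∂μ ∂ν ≤ K)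
    {p : ℝ} (hp : 2 < p) {F : X → ℝ≥0∞} (hF : Measurable F) :
    ∫⁻ y, Op μ k F y ^ p ∂ν
      ≤ ENNReal.ofReal (8 * p / (p - 2)) * K * (2 * R) ^ (p - 2) * ∫⁻ x, F x ^ p ∂μ := by
  have hp0 : 0 < p := by linarith
  have hp2 : 0 < p - 2 := by linarith
  have hAm := measurable_Op (μ := μ) hk hF
  set A := Op μ k F with hA
  -- layer cake on the left
  have h1 : ∫⁻ y, A y ^ p ∂ν = ∫⁻ l in Ioi (0:ℝ),
      ENNReal.ofReal (p * l ^ (p - 1)) * ν {y | ENNReal.ofReal l < A y} := by
    simp_rw [← layer hp0]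
    have hme : Measurable (fun q : Y × ℝ =>
        if ENNReal.ofReal q.2 < A q.1 then ENNReal.ofReal (p * q.2 ^ (p - 1)) else 0) := by
      apply Measurable.ite
      · exact measurableSet_lt (by fun_prop) (hAm.comp measurable_fst)
      · fun_prop
      · fun_prop
    rw [lintegral_lintegral_swap hme.aemeasurable]
    apply lintegral_congr
    intro l
    have hs : MeasurableSet {y | ENNReal.ofReal l < A y} := measurableSet_lt measurable_const hAm
    calc ∫⁻ y, (if ENNReal.ofReal l < A y then ENNReal.ofReal (p * l ^ (p - 1)) else 0) ∂ν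
        = ∫⁻ y, {y | ENNReal.ofReal l < A y}.indicator
            (fun _ => ENNReal.ofReal (p * l ^ (p - 1))) y ∂ν := by
          apply lintegral_congr
          intro y
          by_cases h : ENNReal.ofReal l < A y
          · rw [if_pos h, indicator_of_mem (by exact h)]
          · rw [if_neg h, indicator_of_notMem (by exact h)]
      _ = _ := by rw [lintegral_indicator_const hs]
  -- pointwise in `l`
  have h2 : ∀ l ∈ Ioi (0:ℝ), ENNReal.ofReal (p * l ^ (p - 1)) * ν {y | ENNReal.ofReal l < A y}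
      ≤ ENNReal.ofReal (p * l ^ (p - 3)) *
        (8 * K * ∫⁻ x in {x | ENNReal.ofReal l < 2 * R * F x}, F x ^ 2 ∂μ) := by
    intro l hl
    have hl0 : (0:ℝ) < l := hl
    have h3 := weak (μ := μ) (ν := ν) hk hτ hR0 hRt hR hK hF hl0
    have e : ENNReal.ofReal (p * l ^ (p - 1))
        = ENNReal.ofReal (p * l ^ (p - 3)) * ENNReal.ofReal (l ^ 2) := by
      rw [← ENNReal.ofReal_mul (by positivity)]
      congr 1
      have : l ^ (p - 1) = l ^ (p - 3) * l ^ (2:ℕ) := by
        rw [← Real.rpow_natCast l 2, ← Real.rpow_add hl0]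
        congr 1
        push_cast
        ring
      rw [this]; ring
    rw [e, mul_assoc]
    gcongr
  rw [h1]
  refine (setLIntegral_mono' measurableSet_Ioi h2).trans ?_
  -- the right hand side
  have hw : Measurable (fun q : ℝ × X =>
      if ENNReal.ofReal q.1 < 2 * R * F q.2 then ENNReal.ofReal ((p - 2) * q.1 ^ (p - 2 - 1))
        else 0) := by
    apply Measurable.ite
    · exact measurableSet_lt (by fun_prop) ((hF.comp measurable_snd).const_mul _)
    · fun_prop
    · fun_prop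
  have h4 : ∀ l : ℝ, 0 < l → ENNReal.ofReal (p * l ^ (p - 3)) *
        (8 * K * ∫⁻ x in {x | ENNReal.ofReal l < 2 * R * F x}, F x ^ 2 ∂μ)
      = ENNReal.ofReal (8 * p / (p - 2)) * K * ∫⁻ x, (if ENNReal.ofReal l < 2 * R * F x then
          ENNReal.ofReal ((p - 2) * l ^ (p - 2 - 1)) else 0) * F x ^ 2 ∂μ := by
    intro l hl
    have hs : MeasurableSet {x | ENNReal.ofReal l < 2 * R * F x} :=
      measurableSet_lt measurable_const (hF.const_mul _)
    have e5 : ∫⁻ x, (if ENNReal.ofReal l < 2 * R * F x then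
          ENNReal.ofReal ((p - 2) * l ^ (p - 2 - 1)) else 0) * F x ^ 2 ∂μ
        = ENNReal.ofReal ((p - 2) * l ^ (p - 2 - 1)) *
          ∫⁻ x in {x | ENNReal.ofReal l < 2 * R * F x}, F x ^ 2 ∂μ := by
      rw [← lintegral_const_mul _ (hF.pow_const 2), ← lintegral_indicator hs]
      apply lintegral_congr
      intro x
      by_cases h : ENNReal.ofReal l < 2 * R * F x
      · rw [if_pos h, indicator_of_mem (by exact h)]
      · rw [if_neg h, indicator_of_notMem (by exact h), zero_mul]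
    rw [e5]
    have e6 : ENNReal.ofReal (p * l ^ (p - 3)) * 8
        = ENNReal.ofReal (8 * p / (p - 2)) * ENNReal.ofReal ((p - 2) * l ^ (p - 2 - 1)) := by
      have e8 : (8 : ℝ≥0∞) = ENNReal.ofReal 8 := by simp
      rw [e8, ← ENNReal.ofReal_mul (by positivity), ← ENNReal.ofReal_mul (by positivity)]
      congr 1
      have : p - 2 - 1 = p - 3 := by ring
      rw [this]
      field_simp
    calc ENNReal.ofReal (p * l ^ (p - 3)) *
        (8 * K * ∫⁻ x in {x | ENNReal.ofReal l < 2 * R * F x}, F x ^ 2 ∂μ)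
        = (ENNReal.ofReal (p * l ^ (p - 3)) * 8) *
          (K * ∫⁻ x in {x | ENNReal.ofReal l < 2 * R * F x}, F x ^ 2 ∂μ) := by ring
      _ = _ := by rw [e6]; ring
  rw [setLIntegral_congr_fun measurableSet_Ioi (fun l hl => h4 l hl)]
  have hwF : Measurable (fun q : ℝ × X => (if ENNReal.ofReal q.1 < 2 * R * F q.2 then
          ENNReal.ofReal ((p - 2) * q.1 ^ (p - 2 - 1)) else 0) * F q.2 ^ 2) :=
    hw.mul ((hF.comp measurable_snd).pow_const 2)
  rw [lintegral_const_mul _ hwF.lintegral_prod_right', lintegral_lintegral_swap hwF.aemeasurable]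
  have h5 : ∀ x, ∫⁻ l in Ioi (0:ℝ), (if ENNReal.ofReal l < 2 * R * F x then
          ENNReal.ofReal ((p - 2) * l ^ (p - 2 - 1)) else 0) * F x ^ 2
      = (2 * R) ^ (p - 2) * F x ^ p := by
    intro x
    have hwx : Measurable (fun l : ℝ => if ENNReal.ofReal l < 2 * R * F x then
        ENNReal.ofReal ((p - 2) * l ^ (p - 2 - 1)) else 0) := hw.comp measurable_prodMk_right
    rw [lintegral_mul_const _ hwx, layer hp2,
      ENNReal.mul_rpow_of_nonneg _ _ hp2.le, mul_assoc]
    congr 1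
    rw [← ENNReal.rpow_natCast, ← ENNReal.rpow_add_of_nonneg _ _ hp2.le (by norm_num)]
    congr 1
    push_cast
    ring
  simp_rw [h5]
  rw [lintegral_const_mul _ (hF.pow_const _)]
  exact le_of_eq (by ring)

end

end Pool.Agent.D0H26.WF
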