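import Pool.Agent.D0H26.WF.Win

set_option autoImplicit false

/-!
Wave fronts: the windows of heights, and the sum over the windows.
-/

open MeasureTheory Set ENNReal Metric

namespace Pool.Agent.D0H26.WF

open Pool.Agent.H803R2.KakFTO Pool.Agent.H803R2.Kak

/-- The lines of the family with slopes of the same modulus and in the same class `κ` form a wave
front for the heights between `α` and `β`. -/
structure Front {d N : ℕ} (κ : Vec d → Fin N) (B : Set (Vec d)) (b : Vec d → Vec d)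
    (α β : Vec d → EReal) : Prop where
  ends : ∀ v ∈ B, ∀ v' ∈ B, ‖v‖ = ‖v'‖ → κ v = κ v' → α v = α v' ∧ β v = β v'
  front : ∀ v ∈ B, ∀ v' ∈ B, ‖v‖ = ‖v'‖ → κ v = κ v' → ∀ s s' : ℝ, α v < s → (s : EReal) < β v →
    α v < s' → (s' : EReal) < β v → ‖v‖ * |s - s'| ≤ ‖(b v + s • v) - (b v' + s' • v')‖

section

variable {m N : ℕ}

/-- Heights at distance at least `ρ` from the ends. -/
def Win (B : Set (Vec (m + 1))) (α β : Vec (m + 1) → EReal) (ρ : ℝ) :
    Set (Vec (m + 1) × ℝ) :=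
  {q | q.1 ∈ B ∧ α q.1 ≤ ((q.2 - ρ : ℝ) : EReal) ∧ ((q.2 + ρ : ℝ) : EReal) ≤ β q.1}

/-- Heights at distance less than `ρ` from one end. -/
def Edge (α β : Vec (m + 1) → EReal) (ρ : ℝ) : Set (Vec (m + 1) × ℝ) :=
  {q | ((q.2 - ρ : ℝ) : EReal) < α q.1 ∨ β q.1 < ((q.2 + ρ : ℝ) : EReal)}

/-- The whole life of the front. -/
def Life (B : Set (Vec (m + 1))) (α β : Vec (m + 1) → EReal) : Set (Vec (m + 1) × ℝ) :=
  {q | q.1 ∈ B ∧ α q.1 < ((q.2 : ℝ) : EReal) ∧ ((q.2 : ℝ) : EReal) < β q.1}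

theorem measurableSet_Win {B : Set (Vec (m + 1))} (hB : MeasurableSet B)
    {α β : Vec (m + 1) → EReal} (hα : Measurable α) (hβ : Measurable β) (ρ : ℝ) :
    MeasurableSet (Win B α β ρ) := by
  have h1 : MeasurableSet {q : Vec (m + 1) × ℝ | q.1 ∈ B} := measurable_fst hB
  have h2 : MeasurableSet {q : Vec (m + 1) × ℝ | α q.1 ≤ ((q.2 - ρ : ℝ) : EReal)} :=
    measurableSet_le (hα.comp measurable_fst)
      (measurable_coe_real_ereal.comp (measurable_snd.sub_const ρ))
  have h3 : MeasurableSet {q : Vec (m + 1) × ℝ | ((q.2 + ρ : ℝ) : EReal) ≤ β q.1} :=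
    measurableSet_le (measurable_coe_real_ereal.comp (measurable_snd.add_const ρ))
      (hβ.comp measurable_fst)
  exact h1.inter (h2.inter h3)

theorem measurableSet_Edge {α β : Vec (m + 1) → EReal} (hα : Measurable α) (hβ : Measurable β)
    (ρ : ℝ) : MeasurableSet (Edge α β ρ) := by
  have h2 : MeasurableSet {q : Vec (m + 1) × ℝ | ((q.2 - ρ : ℝ) : EReal) < α q.1} :=
    measurableSet_lt (measurable_coe_real_ereal.comp (measurable_snd.sub_const ρ))
      (hα.comp measurable_fst)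
  have h3 : MeasurableSet {q : Vec (m + 1) × ℝ | β q.1 < ((q.2 + ρ : ℝ) : EReal)} :=
    measurableSet_lt (hβ.comp measurable_fst)
      (measurable_coe_real_ereal.comp (measurable_snd.add_const ρ))
  exact h2.union h3

theorem measurableSet_Life {B : Set (Vec (m + 1))} (hB : MeasurableSet B)
    {α β : Vec (m + 1) → EReal} (hα : Measurable α) (hβ : Measurable β) :
    MeasurableSet (Life B α β) := by
  have h1 : MeasurableSet {q : Vec (m + 1) × ℝ | q.1 ∈ B} := measurable_fst hB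
  have h2 : MeasurableSet {q : Vec (m + 1) × ℝ | α q.1 < ((q.2 : ℝ) : EReal)} :=
    measurableSet_lt (hα.comp measurable_fst) (measurable_coe_real_ereal.comp measurable_snd)
  have h3 : MeasurableSet {q : Vec (m + 1) × ℝ | ((q.2 : ℝ) : EReal) < β q.1} :=
    measurableSet_lt (measurable_coe_real_ereal.comp measurable_snd) (hβ.comp measurable_fst)
  exact h1.inter (h2.inter h3)

/-- Lines of a front separate at the full speed. -/
theorem front_two {κ : Vec (m + 1) → Fin N} {B : Set (Vec (m + 1))}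
    {b : Vec (m + 1) → Vec (m + 1)} {α β : Vec (m + 1) → EReal} (hF : Front κ B b α β)
    {ρ : ℝ} (hρ : 0 < ρ) {v v' : Vec (m + 1)} {s : ℝ} (h1 : (v, s) ∈ Win B α β ρ)
    (h2 : (v', s) ∈ Win B α β ρ) (hn : ‖v‖ = ‖v'‖) (hκ : κ v = κ v') :
    ρ * ‖v - v'‖ ≤ ‖(b v + s • v) - (b v' + s • v')‖ := by
  obtain ⟨hv, ha, hb⟩ := h1
  obtain ⟨hv', ha', hb'⟩ := h2
  simp only at hv ha hb hv' ha' hb'
  set D := (b v + s • v) - (b v' + s • v') with hD
  have key : ∀ h : ℝ, 0 < h → h < ρ → h * ‖v - v'‖ ≤ ‖D‖ := by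
    intro h h0 hlt
    have a1 : α v < ((s + h : ℝ) : EReal) := lt_of_le_of_lt ha (by
      rw [EReal.coe_lt_coe_iff]; linarith)
    have a2 : ((s + h : ℝ) : EReal) < β v := lt_of_lt_of_le (by
      rw [EReal.coe_lt_coe_iff]; linarith) hb
    have a3 : α v < ((s - h : ℝ) : EReal) := lt_of_le_of_lt ha (by
      rw [EReal.coe_lt_coe_iff]; linarith)
    have a4 : ((s - h : ℝ) : EReal) < β v := lt_of_lt_of_le (by
      rw [EReal.coe_lt_coe_iff]; linarith) hb
    have e1 := hF.front v hv v' hv' hn hκ (s + h) (s - h) a1 a2 a3 a4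
    have e2 := hF.front v hv v' hv' hn hκ (s - h) (s + h) a3 a4 a1 a2
    have f1 : (b v + (s + h) • v) - (b v' + (s - h) • v') = D + h • (v + v') := by
      rw [hD, add_smul, sub_smul, smul_add]; abel
    have f2 : (b v + (s - h) • v) - (b v' + (s + h) • v') = D - h • (v + v') := by
      rw [hD, add_smul, sub_smul, smul_add]; abel
    have g1 : |s + h - (s - h)| = 2 * h := by
      have : s + h - (s - h) = 2 * h := by ring
      rw [this, abs_of_pos (by linarith)]
    have g2 : |s - h - (s + h)| = 2 * h := by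
      have : s - h - (s + h) = -(2 * h) := by ring
      rw [this, abs_neg, abs_of_pos (by linarith)]
    rw [f1, g1] at e1
    rw [f2, g2] at e2
    have q1 : (‖v‖ * (2 * h)) ^ 2 ≤ ‖D + h • (v + v')‖ ^ 2 :=
      pow_le_pow_left₀ (by positivity) e1 2
    have q2 : (‖v‖ * (2 * h)) ^ 2 ≤ ‖D - h • (v + v')‖ ^ 2 :=
      pow_le_pow_left₀ (by positivity) e2 2
    have p1 := parallelogram_law_with_norm ℝ D (h • (v + v'))
    have p2 := parallelogram_law_with_norm ℝ v v'
    have p3 : ‖h • (v + v')‖ = h * ‖v + v'‖ := by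
      rw [norm_smul, Real.norm_eq_abs, abs_of_pos h0]
    rw [p3] at p1
    rw [← hn] at p2
    have hfin : (h * ‖v - v'‖) ^ 2 ≤ ‖D‖ ^ 2 := by
      have t1 : (h * ‖v - v'‖) ^ 2 = h ^ 2 * (‖v - v'‖ * ‖v - v'‖) := by ring
      have t2 : ‖v - v'‖ * ‖v - v'‖ = 2 * (‖v‖ * ‖v‖ + ‖v‖ * ‖v‖) - ‖v + v'‖ * ‖v + v'‖ := by
        linarith
      rw [t1, t2]
      nlinarith
    exact le_of_sq_le_sq hfin (norm_nonneg _)
  by_contra hcon
  push Not at hcon
  have hvpos : 0 < ‖v - v'‖ := by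
    by_contra h0
    have h0' : ‖v - v'‖ = 0 := le_antisymm (not_lt.1 h0) (norm_nonneg _)
    rw [h0', mul_zero] at hcon
    exact absurd hcon (not_lt.2 (norm_nonneg _))
  have hq : ‖D‖ / ‖v - v'‖ < ρ := by rwa [div_lt_iff₀ hvpos]
  have hq0 : 0 ≤ ‖D‖ / ‖v - v'‖ := by positivity
  set h := (‖D‖ / ‖v - v'‖ + ρ) / 2 with hh
  have hk := key h (by rw [hh]; linarith) (by rw [hh]; linarith)
  have : ‖D‖ / ‖v - v'‖ < h := by rw [hh]; linarith
  rw [div_lt_iff₀ hvpos] at this
  linarith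

theorem front_Fr {κ : Vec (m + 1) → Fin N} {B : Set (Vec (m + 1))}
    {b : Vec (m + 1) → Vec (m + 1)} {α β : Vec (m + 1) → EReal} (hF : Front κ B b α β)
    {ρ : ℝ} (hρ : 0 < ρ) {W : Set (Vec (m + 1) × ℝ)} (hW : W ⊆ Win B α β ρ) :
    Fr κ b ρ W := by
  constructor
  · intro v v' s s' h1 h2 hn hκ
    obtain ⟨hv, ha, hb⟩ := hW h1
    obtain ⟨hv', ha', hb'⟩ := hW h2
    simp only at hv ha hb hv' ha' hb'
    obtain ⟨e1, e2⟩ := hF.ends v hv v' hv' hn hκ
    rw [← e1] at ha'
    rw [← e2] at hb'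
    exact hF.front v hv v' hv' hn hκ s s'
      (lt_of_le_of_lt ha (by rw [EReal.coe_lt_coe_iff]; linarith))
      (lt_of_lt_of_le (by rw [EReal.coe_lt_coe_iff]; linarith) hb)
      (lt_of_le_of_lt ha' (by rw [EReal.coe_lt_coe_iff]; linarith))
      (lt_of_lt_of_le (by rw [EReal.coe_lt_coe_iff]; linarith) hb')
  · intro v v' s h1 h2 hn hκ
    exact front_two hF hρ (hW h1) (hW h2) hn hκ

/-- The heights near one end. -/
theorem edge_len (α β : Vec (m + 1) → EReal) (v : Vec (m + 1)) {a ρ : ℝ} (hρ : 0 < ρ)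
    {S : Set ℝ} (h1 : ∀ s ∈ S, α v ≤ ((s - a : ℝ) : EReal) ∧ ((s + a : ℝ) : EReal) ≤ β v)
    (h2 : ∀ s ∈ S, ((s - (a + ρ) : ℝ) : EReal) < α v ∨ β v < ((s + (a + ρ) : ℝ) : EReal)) :
    volume S ≤ ENNReal.ofReal (2 * ρ) := by
  have key : ∀ x : EReal, volume {s : ℝ | x ≤ ((s - a : ℝ) : EReal) ∧
      ((s - (a + ρ) : ℝ) : EReal) < x} ≤ ENNReal.ofReal ρ := by
    intro x
    induction x with
    | bot =>
      have : {s : ℝ | (⊥ : EReal) ≤ ((s - a : ℝ) : EReal) ∧
        ((s - (a + ρ) : ℝ) : EReal) < (⊥ : EReal)} = ∅ := by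
        ext s; simp
      rw [this]; simp
    | top =>
      have : {s : ℝ | (⊤ : EReal) ≤ ((s - a : ℝ) : EReal) ∧
        ((s - (a + ρ) : ℝ) : EReal) < (⊤ : EReal)} = ∅ := by
        ext s
        simp only [mem_ofPred_eq, mem_empty_iff_false, iff_false, not_and]
        intro h
        exact absurd (top_le_iff.1 h) (EReal.coe_ne_top _)
      rw [this]; simp
    | coe x =>
      have : {s : ℝ | (x : EReal) ≤ ((s - a : ℝ) : EReal) ∧
        ((s - (a + ρ) : ℝ) : EReal) < (x : EReal)} ⊆ Icc (x + a) (x + a + ρ) := by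
        intro s hs
        have h3 := EReal.coe_le_coe_iff.1 hs.1
        have h4 := EReal.coe_lt_coe_iff.1 hs.2
        constructor <;> linarith
      refine (measure_mono this).trans ?_
      rw [Real.volume_Icc]
      apply ENNReal.ofReal_le_ofReal
      linarith
  have key2 : ∀ x : EReal, volume {s : ℝ | ((s + a : ℝ) : EReal) ≤ x ∧
      x < ((s + (a + ρ) : ℝ) : EReal)} ≤ ENNReal.ofReal ρ := by
    intro x
    induction x with
    | bot =>
      have : {s : ℝ | ((s + a : ℝ) : EReal) ≤ (⊥ : EReal) ∧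
        (⊥ : EReal) < ((s + (a + ρ) : ℝ) : EReal)} = ∅ := by
        ext s
        simp only [mem_ofPred_eq, mem_empty_iff_false, iff_false, not_and]
        intro h
        exact absurd (le_bot_iff.1 h) (EReal.coe_ne_bot _)
      rw [this]; simp
    | top =>
      have : {s : ℝ | ((s + a : ℝ) : EReal) ≤ (⊤ : EReal) ∧
        (⊤ : EReal) < ((s + (a + ρ) : ℝ) : EReal)} = ∅ := by
        ext s; simp
      rw [this]; simp
    | coe x =>
      have : {s : ℝ | ((s + a : ℝ) : EReal) ≤ (x : EReal) ∧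
        (x : EReal) < ((s + (a + ρ) : ℝ) : EReal)} ⊆ Icc (x - a - ρ) (x - a) := by
        intro s hs
        have h3 := EReal.coe_le_coe_iff.1 hs.1
        have h4 := EReal.coe_lt_coe_iff.1 hs.2
        constructor <;> linarith
      refine (measure_mono this).trans ?_
      rw [Real.volume_Icc]
      apply ENNReal.ofReal_le_ofReal
      linarith
  have hsub : S ⊆ {s : ℝ | α v ≤ ((s - a : ℝ) : EReal) ∧ ((s - (a + ρ) : ℝ) : EReal) < α v} ∪
      {s : ℝ | ((s + a : ℝ) : EReal) ≤ β v ∧ β v < ((s + (a + ρ) : ℝ) : EReal)} := by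
    intro s hs
    rcases h2 s hs with h | h
    · exact Or.inl ⟨(h1 s hs).1, h⟩
    · exact Or.inr ⟨(h1 s hs).2, h⟩
  calc volume S ≤ _ := measure_mono hsub
    _ ≤ _ := measure_union_le _ _
    _ ≤ ENNReal.ofReal ρ + ENNReal.ofReal ρ := add_le_add (key _) (key2 _)
    _ = ENNReal.ofReal (2 * ρ) := by
        rw [← ENNReal.ofReal_add hρ.le hρ.le]
        congr 1; ring

/-- The windows: number `0` are the heights at distance at least one from the ends, number `j` those
at distance between `2^(-j)` and `2^(1-j)`. -/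
def Wj (B : Set (Vec (m + 1))) (α β : Vec (m + 1) → EReal) (j : ℕ) : Set (Vec (m + 1) × ℝ) :=
  if j = 0 then Win B α β 1 else Win B α β ((1 / 2) ^ j) ∩ Edge α β (2 * (1 / 2) ^ j)

theorem Wj_sub (B : Set (Vec (m + 1))) (α β : Vec (m + 1) → EReal) (j : ℕ) :
    Wj B α β j ⊆ Win B α β ((1 / 2) ^ j) := by
  unfold Wj
  split_ifs with h
  · rw [h]; simp
  · exact inter_subset_left

theorem measurableSet_Wj {B : Set (Vec (m + 1))} (hB : MeasurableSet B)
    {α β : Vec (m + 1) → EReal} (hα : Measurable α) (hβ : Measurable β) (j : ℕ) :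
    MeasurableSet (Wj B α β j) := by
  unfold Wj
  split_ifs with h
  · exact measurableSet_Win hB hα hβ _
  · exact (measurableSet_Win hB hα hβ _).inter (measurableSet_Edge hα hβ _)

theorem Wj_len {B : Set (Vec (m + 1))} (hB : MeasurableSet B)
    {α β : Vec (m + 1) → EReal} (hα : Measurable α) (hβ : Measurable β) (j : ℕ)
    {I : Set ℝ} (hI3 : volume I ≤ 3) (v : Vec (m + 1)) :
    ∫⁻ s in I, (Wj B α β j).indicator 1 (v, s) ≤ ENNReal.ofReal (3 * (1 / 2) ^ j) := by
  have hm : MeasurableSet {s : ℝ | (v, s) ∈ Wj B α β j} :=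
    measurable_prodMk_left (measurableSet_Wj hB hα hβ j)
  have e : ∫⁻ s in I, (Wj B α β j).indicator 1 (v, s)
      = volume.restrict I {s : ℝ | (v, s) ∈ Wj B α β j} := by
    rw [← lintegral_indicator_one hm]
    rfl
  rw [e]
  by_cases h : j = 0
  · refine (measure_mono (subset_univ _)).trans ?_
    rw [Measure.restrict_apply_univ, h]
    refine hI3.trans ?_
    simp
  · refine (Measure.restrict_apply_le _ _).trans ?_
    have hpos : (0:ℝ) < (1 / 2) ^ j := by positivity
    have h3 : volume {s : ℝ | (v, s) ∈ Wj B α β j} ≤ ENNReal.ofReal (2 * (1 / 2) ^ j) := by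
      apply edge_len α β v (a := (1 / 2) ^ j) hpos
      · intro s hs
        have := Wj_sub B α β j hs
        exact ⟨this.2.1, this.2.2⟩
      · intro s hs
        have hs' : (v, s) ∈ Wj B α β j := hs
        unfold Wj at hs'
        rw [if_neg h] at hs'
        have h4 := hs'.2
        have e2 : (2:ℝ) * (1 / 2) ^ j = (1 / 2) ^ j + (1 / 2) ^ j := by ring
        unfold Edge at h4
        rw [e2] at h4
        exact h4
    refine h3.trans (ENNReal.ofReal_le_ofReal ?_)
    nlinarith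

/-- The last window: distance less than `2^(-J)` from the ends. -/
def We (B : Set (Vec (m + 1))) (α β : Vec (m + 1) → EReal) (J : ℕ) : Set (Vec (m + 1) × ℝ) :=
  Life B α β ∩ Edge α β ((1 / 2) ^ J)

theorem We_len {B : Set (Vec (m + 1))} (hB : MeasurableSet B)
    {α β : Vec (m + 1) → EReal} (hα : Measurable α) (hβ : Measurable β) (J : ℕ)
    (v : Vec (m + 1)) :
    volume {s : ℝ | (v, s) ∈ We B α β J} ≤ ENNReal.ofReal (2 * (1 / 2) ^ J) := by
  have hpos : (0:ℝ) < (1 / 2) ^ J := by positivity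
  apply edge_len α β v (a := 0) hpos
  · intro s hs
    have h1 : (v, s) ∈ Life B α β := hs.1
    obtain ⟨-, h2, h3⟩ := h1
    simp only at h2 h3
    constructor
    · rw [sub_zero]; exact h2.le
    · rw [add_zero]; exact h3.le
  · intro s hs
    have h1 : (v, s) ∈ Edge α β ((1 / 2) ^ J) := hs.2
    rw [zero_add]
    exact h1

/-- The windows cover the life of the front. -/
theorem cover (B : Set (Vec (m + 1))) (α β : Vec (m + 1) → EReal) (J : ℕ)
    (q : Vec (m + 1) × ℝ) (hq : q ∈ Life B α β) :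
    q ∈ We B α β J ∨ ∃ j ∈ Finset.range (J + 1), q ∈ Wj B α β j := by
  classical
  by_cases h : q ∈ Edge α β ((1 / 2) ^ J)
  · exact Or.inl ⟨hq, h⟩
  right
  have hW : ∀ j : ℕ, q ∉ Edge α β ((1 / 2) ^ j) → q ∈ Win B α β ((1 / 2) ^ j) := by
    intro j hj
    unfold Edge at hj
    simp only [mem_ofPred_eq, not_or, not_lt] at hj
    exact ⟨hq.1, hj.1, hj.2⟩
  have hex : ∃ j : ℕ, q ∈ Win B α β ((1 / 2) ^ j) := ⟨J, hW J h⟩
  refine ⟨Nat.find hex, ?_, ?_⟩
  · rw [Finset.mem_range]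
    exact Nat.lt_succ_of_le (Nat.find_min' hex (hW J h))
  · unfold Wj
    split_ifs with h0
    · have := Nat.find_spec hex
      rw [h0] at this
      simpa using this
    · refine ⟨Nat.find_spec hex, ?_⟩
      obtain ⟨i, hi⟩ := Nat.exists_eq_succ_of_ne_zero h0
      have h1 : q ∉ Win B α β ((1 / 2) ^ i) := Nat.find_min hex (by omega)
      have h2 : q ∈ Edge α β ((1 / 2) ^ i) := by
        by_contra h3
        exact h1 (hW i h3)
      rw [hi]
      have e : (2:ℝ) * (1 / 2) ^ (i.succ) = (1 / 2) ^ i := by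
        rw [pow_succ]; ring
      rw [e]
      exact h2

end

end Pool.Agent.D0H26.WF
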