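import Pool.Agent.D0H26.WF.Sum

set_option autoImplicit false

/-!
The maximal function of a wave-front family.
-/

open MeasureTheory Set ENNReal Metric

namespace Pool.Agent.D0H26.WF

open Pool.Agent.H803R2.KakFTO Pool.Agent.H803R2.Kak Pool.Agent.H805R3.Kk.Gen

/-- The function `f` at the heights strictly between `α` and `β`, zero at the other heights. -/
noncomputable def cut {d : ℕ} (α β : EReal) (f : Space d → ℝ) : Space d → ℝ :=
  {y : Space d | α < ((y.snd : ℝ) : EReal) ∧ ((y.snd : ℝ) : EReal) < β}.indicator f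

theorem measurableSet_cut {d : ℕ} (α β : EReal) :
    MeasurableSet {y : Space d | α < ((y.snd : ℝ) : EReal) ∧ ((y.snd : ℝ) : EReal) < β} := by
  have hsnd : Measurable (fun y : Space d => y.snd) :=
    measurable_snd.comp (WithLp.volume_preserving_ofLp (Vec d) ℝ).measurable
  have h1 : Measurable (fun y : Space d => ((y.snd : ℝ) : EReal)) :=
    measurable_coe_real_ereal.comp hsnd
  exact (measurableSet_lt measurable_const h1).inter (measurableSet_lt h1 measurable_const)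

section

variable {m N : ℕ}

theorem iSup_le_tsum {J : ℤ → ℝ≥0∞} {p : ℝ} (hp : 0 < p) (a : ℝ≥0∞)
    (h : ∃ k : ℤ, a ≤ J k + J (k + 1)) : a ^ p ≤ 2 ^ p * ∑' k : ℤ, J k ^ p := by
  obtain ⟨k, hk⟩ := h
  have h1 : a ≤ 2 * max (J k) (J (k + 1)) := by
    refine hk.trans ?_
    rw [two_mul]
    exact add_le_add (le_max_left _ _) (le_max_right _ _)
  refine (ENNReal.rpow_le_rpow h1 hp.le).trans ?_
  rw [ENNReal.mul_rpow_of_nonneg _ _ hp.le]
  gcongr
  rcases le_total (J k) (J (k + 1)) with h | h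
  · rw [max_eq_right h]
    exact ENNReal.le_tsum (f := fun k => J k ^ p) (k + 1)
  · rw [max_eq_left h]
    exact ENNReal.le_tsum (f := fun k => J k ^ p) k

/-- The intervals of heights. -/
def Ik (k : ℤ) : Set ℝ := Ico (3 * (k:ℝ)) (3 * k + 3)

theorem Icc_sub (h : ℝ) : Icc h (h + 3) ⊆ Ik ⌊h / 3⌋ ∪ Ik (⌊h / 3⌋ + 1) := by
  intro t ht
  have h1 := Int.floor_le (h / 3)
  have h2 := Int.lt_floor_add_one (h / 3)
  set k := ⌊h / 3⌋
  unfold Ik
  by_cases hlt : t < 3 * k + 3
  · left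
    exact ⟨by linarith [ht.1], hlt⟩
  · right
    push Not at hlt
    refine ⟨by push_cast; linarith, ?_⟩
    push_cast
    linarith [ht.2]

theorem tsum_Ik {F : Vec (m + 1) × ℝ → ℝ≥0∞} (hF : Measurable F) {p : ℝ} (hp : 0 < p) :
    ∑' k : ℤ, ∫⁻ x : Vec (m + 1) × ℝ,
      ({x : Vec (m + 1) × ℝ | x.2 ∈ Ik k}.indicator F x) ^ p = ∫⁻ x, F x ^ p := by
  have hm : ∀ k : ℤ, MeasurableSet {x : Vec (m + 1) × ℝ | x.2 ∈ Ik k} := fun k =>
    measurable_snd (measurableSet_Ico)
  rw [← lintegral_tsum (fun k => ((hF.indicator (hm k)).pow_const p).aemeasurable)]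
  apply lintegral_congr
  intro x
  rw [tsum_eq_single ⌊x.2 / 3⌋]
  · rw [indicator_of_mem]
    have h1 := Int.floor_le (x.2 / 3)
    have h2 := Int.lt_floor_add_one (x.2 / 3)
    exact ⟨by linarith, by linarith⟩
  · intro k hk
    rw [indicator_of_notMem, ENNReal.zero_rpow_of_pos hp]
    intro hx
    apply hk
    have hx' : x.2 ∈ Ik k := hx
    symm
    rw [Int.floor_eq_iff]
    exact ⟨by linarith [hx'.1], by linarith [hx'.2]⟩

/-- **A measurable majorant of the maximal function.** -/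
theorem majorant {κ : Vec (m + 1) → Fin N} (hκ : Measurable κ) {B : Set (Vec (m + 1))}
    (hB : MeasurableSet B) (hB1 : B ⊆ closedBall 0 1)
    {b : Vec (m + 1) → Vec (m + 1)} (hb : Measurable b) {α β : Vec (m + 1) → EReal}
    (hα : Measurable α) (hβ : Measurable β) (hFr : Front κ B b α β) {δ : ℝ} (hδ : 0 < δ)
    (hδ1 : δ < 1) {p : ℝ} (hp : (m:ℝ) + 2 ≤ p) (hm : 1 ≤ m)
    {f : Space (m + 1) → ℝ} (hf : Measurable f) :
    ∃ G : Vec (m + 1) → ℝ≥0∞, Measurable G ∧
      (∀ v ∈ B, lineMax δ b (cut (α v) (β v) f) v ^ p ≤ G v) ∧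
      ∫⁻ v in closedBall (0 : Vec (m + 1)) 1, G v
        ≤ ENNReal.ofReal ((8 * 8 ^ (m + 1)) ^ p * cc m p * N *
          (1 + Real.log (1 / δ)) ^ (p + 1)) * ∫⁻ y, ‖f y‖ₑ ^ p := by
  have hm' : (1:ℝ) ≤ m := by exact_mod_cast hm
  have hp0 : 0 < p := by linarith
  have hp2 : 2 < p := by linarith
  have hlog : 0 ≤ Real.log (1 / δ) := Real.log_nonneg (by rw [le_div_iff₀ hδ]; linarith)
  have hmp := WithLp.volume_preserving_toLp (Vec (m + 1)) ℝ
  set F : Vec (m + 1) × ℝ → ℝ≥0∞ := fun q => ‖f (WithLp.toLp 2 q)‖ₑ with hFdef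
  have hF : Measurable F := (hf.comp hmp.measurable).enorm
  set Fk : ℤ → Vec (m + 1) × ℝ → ℝ≥0∞ := fun k =>
    {x : Vec (m + 1) × ℝ | x.2 ∈ Ik k}.indicator F with hFk
  have hIkm : ∀ k : ℤ, MeasurableSet (Ik k) := fun k => measurableSet_Ico
  have hFkm : ∀ k, Measurable (Fk k) := fun k => hF.indicator (measurable_snd (hIkm k))
  set J : Vec (m + 1) → ℤ → ℝ≥0∞ := fun v k =>
    ∫⁻ s in Ik k, (Life B α β).indicator 1 (v, s) * moll (2 * δ) (Fk k) (b v + s • v, s) with hJ
  have hJm : ∀ k, Measurable (fun v => J v k) := by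
    intro k
    have h1 : Measurable (fun q : Vec (m + 1) × ℝ => (Life B α β).indicator
        (1 : Vec (m + 1) × ℝ → ℝ≥0∞) (q.1, q.2) * moll (2 * δ) (Fk k) (b q.1 + q.2 • q.1, q.2)) := by
      apply Measurable.mul
      · exact measurable_one.indicator (measurableSet_Life hB hα hβ)
      · apply (measurable_moll (hFkm k)).comp
        exact ((hb.comp measurable_fst).add (measurable_snd.smul measurable_fst)).prodMk
          measurable_snd
    exact h1.lintegral_prod_right'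
  have hk3 : ∀ k : ℤ, volume (Ik k) ≤ 3 := by
    intro k
    unfold Ik
    rw [Real.volume_Ico]
    have : 3 * (k:ℝ) + 3 - 3 * k = 3 := by ring
    rw [this]; simp
  have hmollk : ∀ (k : ℤ) (x : Vec (m + 1)) (s : ℝ), s ∈ Ik k →
      moll (2 * δ) F (x, s) = moll (2 * δ) (Fk k) (x, s) := by
    intro k x s hs
    unfold moll
    congr 1
    apply lintegral_congr
    intro w
    simp only [hFk]
    rw [indicator_of_mem (by exact hs)]
  refine ⟨fun v => (8 * 8 ^ (m + 1)) ^ p * ∑' k : ℤ, J v k ^ p, ?_, ?_, ?_⟩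
  · exact (Measurable.tsum fun k => (hJm k).pow_const p).const_mul _
  · intro v hv
    have hv1 : ‖v‖ ≤ 1 := by simpa using hB1 hv
    have hcutm : Measurable (cut (α v) (β v) f) := hf.indicator (measurableSet_cut _ _)
    have h1 := lineMax_le hδ hδ1 b hv1 hcutm
    have hmoll : ∀ (x : Vec (m + 1)) (t : ℝ),
        moll (2 * δ) (fun q : Vec (m + 1) × ℝ => ‖cut (α v) (β v) f (WithLp.toLp 2 q)‖ₑ) (x, t)
        = (Life B α β).indicator 1 (v, t) * moll (2 * δ) F (x, t) := by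
      intro x t
      by_cases ht : α v < (t : EReal) ∧ (t : EReal) < β v
      · have hmem : (v, t) ∈ Life B α β := ⟨hv, ht⟩
        rw [indicator_of_mem hmem, Pi.one_apply, one_mul]
        unfold moll
        congr 1
        apply lintegral_congr
        intro w
        simp only [hFdef, cut]
        rw [indicator_of_mem (by exact ht)]
      · have hmem : (v, t) ∉ Life B α β := fun h => ht h.2
        rw [indicator_of_notMem hmem, zero_mul]
        unfold moll
        have : ∀ w : Vec (m + 1), ‖cut (α v) (β v) f (WithLp.toLp 2 (x + w, t))‖ₑ = 0 := by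
          intro w
          simp only [cut]
          rw [indicator_of_notMem (by exact ht)]
          simp
        simp [this]
    simp_rw [hmoll] at h1
    have h2 : lineMax δ b (cut (α v) (β v) f) v ^ p ≤ (4 * 8 ^ (m + 1)) ^ p *
        (⨆ h : ℝ, ∫⁻ t in Icc h (h + 3), (Life B α β).indicator 1 (v, t) *
          moll (2 * δ) F (b v + t • v, t)) ^ p := by
      rw [← ENNReal.mul_rpow_of_nonneg _ _ hp0.le]
      exact ENNReal.rpow_le_rpow h1 hp0.le
    have h3 : (⨆ h : ℝ, ∫⁻ t in Icc h (h + 3), (Life B α β).indicator 1 (v, t) *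
          moll (2 * δ) F (b v + t • v, t)) ^ p ≤ 2 ^ p * ∑' k : ℤ, J v k ^ p := by
      have e : (⨆ h : ℝ, ∫⁻ t in Icc h (h + 3), (Life B α β).indicator 1 (v, t) *
          moll (2 * δ) F (b v + t • v, t)) ^ p
          = ⨆ h : ℝ, (∫⁻ t in Icc h (h + 3), (Life B α β).indicator 1 (v, t) *
          moll (2 * δ) F (b v + t • v, t)) ^ p := Pool.Agent.H805R3.Kk.iSup_rpow _ hp0
      rw [e]
      apply iSup_le
      intro h
      apply iSup_le_tsum hp0
      refine ⟨⌊h / 3⌋, ?_⟩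
      calc ∫⁻ t in Icc h (h + 3), (Life B α β).indicator 1 (v, t) *
          moll (2 * δ) F (b v + t • v, t)
          ≤ ∫⁻ t in Ik ⌊h / 3⌋ ∪ Ik (⌊h / 3⌋ + 1), (Life B α β).indicator 1 (v, t) *
          moll (2 * δ) F (b v + t • v, t) := lintegral_mono_set (Icc_sub h)
        _ ≤ (∫⁻ t in Ik ⌊h / 3⌋, (Life B α β).indicator 1 (v, t) *
          moll (2 * δ) F (b v + t • v, t)) + ∫⁻ t in Ik (⌊h / 3⌋ + 1),
          (Life B α β).indicator 1 (v, t) * moll (2 * δ) F (b v + t • v, t) :=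
          lintegral_union_le _ _ _
        _ = J v ⌊h / 3⌋ + J v (⌊h / 3⌋ + 1) := by
          simp only [hJ]
          congr 1
          · apply setLIntegral_congr_fun (hIkm _)
            intro t ht
            simp only
            rw [hmollk _ _ _ ht]
          · apply setLIntegral_congr_fun (hIkm _)
            intro t ht
            simp only
            rw [hmollk _ _ _ ht]
    refine h2.trans ?_
    calc (4 * 8 ^ (m + 1)) ^ p * (⨆ h : ℝ, ∫⁻ t in Icc h (h + 3),
          (Life B α β).indicator 1 (v, t) * moll (2 * δ) F (b v + t • v, t)) ^ p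
        ≤ (4 * 8 ^ (m + 1)) ^ p * (2 ^ p * ∑' k : ℤ, J v k ^ p) := by gcongr
      _ = (8 * 8 ^ (m + 1)) ^ p * ∑' k : ℤ, J v k ^ p := by
          rw [← mul_assoc, ← ENNReal.mul_rpow_of_nonneg _ _ hp0.le]
          congr 2
          ring
  · have hc : ((8:ℝ≥0∞) * 8 ^ (m + 1)) ^ p ≠ ∞ :=
      ENNReal.rpow_ne_top_of_nonneg hp0.le
        (ENNReal.mul_ne_top (by simp) (ENNReal.pow_ne_top (by simp)))
    rw [lintegral_const_mul' _ _ hc, lintegral_tsum (fun k => ((hJm k).pow_const p).aemeasurable)]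
    have h4 : ∀ k : ℤ, ∫⁻ v in closedBall (0 : Vec (m + 1)) 1, J v k ^ p
        ≤ ENNReal.ofReal (cc m p * N * (1 + Real.log (1 / δ)) ^ (p + 1)) *
          ∫⁻ x, Fk k x ^ p := fun k =>
      chunk hκ hB hb hα hβ hFr hδ hδ1 (hIkm k) (hk3 k) hp hm (hFkm k)
    have hcw := cw_nonneg m hp2
    have hcc : 0 ≤ cc m p := by unfold cc; positivity
    have hS : ∫⁻ x : Vec (m + 1) × ℝ, F x ^ p = ∫⁻ y : Space (m + 1), ‖f y‖ₑ ^ p :=
      hmp.lintegral_comp (f := fun y : Space (m + 1) => ‖f y‖ₑ ^ p) (hf.enorm.pow_const _)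
    calc (8 * 8 ^ (m + 1)) ^ p * ∑' k : ℤ, ∫⁻ v in closedBall (0 : Vec (m + 1)) 1, J v k ^ p
        ≤ (8 * 8 ^ (m + 1)) ^ p * ∑' k : ℤ,
          ENNReal.ofReal (cc m p * N * (1 + Real.log (1 / δ)) ^ (p + 1)) *
          ∫⁻ x, Fk k x ^ p := by
          gcongr with k
          exact h4 k
      _ = (8 * 8 ^ (m + 1)) ^ p *
          (ENNReal.ofReal (cc m p * N * (1 + Real.log (1 / δ)) ^ (p + 1)) *
          ∫⁻ y, ‖f y‖ₑ ^ p) := by
          rw [ENNReal.tsum_mul_left, hFk, tsum_Ik hF hp0, hS]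
      _ = _ := by
          rw [← mul_assoc]
          congr 1
          have e8 : ((8:ℝ≥0∞) * 8 ^ (m + 1)) ^ p = ENNReal.ofReal ((8 * 8 ^ (m + 1)) ^ p) := by
            rw [← ENNReal.ofReal_rpow_of_nonneg (by positivity) hp0.le,
              ENNReal.ofReal_mul (by norm_num), ENNReal.ofReal_pow (by norm_num)]
            simp
          rw [e8, ← ENNReal.ofReal_mul (by positivity)]
          congr 1
          ring

/-- The pieces of the heights. -/
theorem lineMax_sum {d M : ℕ} {δ : ℝ} (b : Vec d → Vec d) (v : Vec d) (a c : Fin M → EReal)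
    {f : Space d → ℝ} (hf : Measurable f)
    (hcov : ∀ᵐ y : Space d, f y = 0 ∨ ∃ i, a i < ((y.snd : ℝ) : EReal) ∧
      ((y.snd : ℝ) : EReal) < c i) :
    lineMax δ b f v ≤ ∑ i : Fin M, lineMax δ b (cut (a i) (c i) f) v := by
  unfold lineMax
  apply iSup_le
  intro s
  have hpt : ∀ᵐ y : Space d, ‖f y‖ₑ ≤ ∑ i : Fin M, ‖cut (a i) (c i) f y‖ₑ := by
    filter_upwards [hcov] with y hy
    rcases hy with h | ⟨i, hi⟩
    · rw [h]; simp
    · refine le_trans ?_ (Finset.single_le_sum (fun i _ => zero_le) (Finset.mem_univ i))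
      simp only [cut]
      rw [indicator_of_mem (by exact hi)]
  have hcm : ∀ i ∈ (Finset.univ : Finset (Fin M)),
      Measurable (fun y => ‖cut (a i) (c i) f y‖ₑ) := fun i _ =>
    (hf.indicator (measurableSet_cut (a i) (c i))).enorm
  calc (volume (tube δ (dir v) (linePt b v s)))⁻¹ *
        ∫⁻ y in tube δ (dir v) (linePt b v s), ‖f y‖ₑ
      ≤ (volume (tube δ (dir v) (linePt b v s)))⁻¹ *
        ∫⁻ y in tube δ (dir v) (linePt b v s), ∑ i : Fin M, ‖cut (a i) (c i) f y‖ₑ := by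
        refine mul_le_mul' le_rfl (lintegral_mono_ae (ae_restrict_of_ae hpt))
    _ = ∑ i : Fin M, (volume (tube δ (dir v) (linePt b v s)))⁻¹ *
        ∫⁻ y in tube δ (dir v) (linePt b v s), ‖cut (a i) (c i) f y‖ₑ := by
        rw [lintegral_finsetSum _ hcm, Finset.mul_sum]
    _ ≤ _ := by
        gcongr with i
        exact le_iSup (fun s : ℝ => (volume (tube δ (dir v) (linePt b v s)))⁻¹ *
          ∫⁻ y in tube δ (dir v) (linePt b v s), ‖cut (a i) (c i) f y‖ₑ) s

/-- **The Kakeya maximal estimate for families which are covered by wave fronts.** -/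
theorem covered {M : ℕ} {κ : Fin M → Vec (m + 1) → Fin N} (hκ : ∀ i, Measurable (κ i))
    {B : Set (Vec (m + 1))} (hB : MeasurableSet B) (hB1 : B ⊆ closedBall 0 1)
    {b : Vec (m + 1) → Vec (m + 1)} (hb : Measurable b) {α β : Fin M → Vec (m + 1) → EReal}
    (hα : ∀ i, Measurable (α i)) (hβ : ∀ i, Measurable (β i))
    (hFr : ∀ i, Front (κ i) B b (α i) (β i)) {T : Set ℝ}
    (hT : ∀ v ∈ B, ∀ᵐ s : ℝ, s ∈ T → ∃ i, α i v < (s : EReal) ∧ (s : EReal) < β i v)
    {δ : ℝ} (hδ : 0 < δ)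
    (hδ1 : δ < 1) {p : ℝ} (hp : (m:ℝ) + 2 ≤ p) (hm : 1 ≤ m)
    {f : Space (m + 1) → ℝ} (hf : AEMeasurable f volume)
    (hfT : ∀ (y : Vec (m + 1)) (t : ℝ), t ∉ T → f (WithLp.toLp 2 (y, t)) = 0) :
    ∫⁻ v in B, lineMax δ b f v ^ p
      ≤ ENNReal.ofReal ((8 * 8 ^ (m + 1)) ^ p * cc m p * M ^ p * N *
        (1 + Real.log (1 / δ)) ^ (p + 1)) * ∫⁻ y, ‖f y‖ₑ ^ p := by
  have hm' : (1:ℝ) ≤ m := by exact_mod_cast hm
  have hp0 : 0 < p := by linarith
  have hp1 : 1 ≤ p := by linarith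
  have hp2 : 2 < p := by linarith
  have hlog : 0 ≤ Real.log (1 / δ) := Real.log_nonneg (by rw [le_div_iff₀ hδ]; linarith)
  set g := hf.mk f with hg
  have hgm : Measurable g := hf.measurable_mk
  have hfg : f =ᵐ[volume] g := hf.ae_eq_mk
  choose G hGm hGle hGint using fun i => majorant (hκ i) hB hB1 hb (hα i) (hβ i) (hFr i) hδ hδ1
    hp hm hgm
  have hpt : ∀ v ∈ B, lineMax δ b f v ^ p ≤ (M : ℝ≥0∞) ^ (p - 1) * ∑ i : Fin M, G i v := by
    intro v hv
    have hcov : ∀ᵐ y : Space (m + 1), g y = 0 ∨ ∃ i, α i v < ((y.snd : ℝ) : EReal) ∧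
        ((y.snd : ℝ) : EReal) < β i v := by
      have h1 : ∀ᵐ q : Vec (m + 1) × ℝ, q.2 ∈ T → ∃ i, α i v < (q.2 : EReal) ∧
          (q.2 : EReal) < β i v := by
        rw [Measure.volume_eq_prod]
        exact Measure.quasiMeasurePreserving_snd.ae (hT v hv)
      have h2 : ∀ᵐ y : Space (m + 1), y.snd ∈ T → ∃ i, α i v < ((y.snd : ℝ) : EReal) ∧
          ((y.snd : ℝ) : EReal) < β i v :=
        (WithLp.volume_preserving_ofLp (Vec (m + 1)) ℝ).quasiMeasurePreserving.ae h1
      filter_upwards [h2, hfg] with y hy hyg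
      by_cases hyT : y.snd ∈ T
      · exact Or.inr (hy hyT)
      · left
        rw [← hyg]
        exact hfT y.fst y.snd hyT
    have h3 := lineMax_sum (δ := δ) b v (fun i => α i v) (fun i => β i v) hgm hcov
    calc lineMax δ b f v ^ p = lineMax δ b g v ^ p := by rw [lineMax_congr b v hfg]
      _ ≤ (∑ i : Fin M, lineMax δ b (cut (α i v) (β i v) g) v) ^ p :=
          ENNReal.rpow_le_rpow h3 hp0.le
      _ ≤ (M : ℝ≥0∞) ^ (p - 1) * ∑ i : Fin M, lineMax δ b (cut (α i v) (β i v) g) v ^ p := by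
          have := ENNReal.rpow_sum_le_const_mul_sum_rpow (s := (Finset.univ : Finset (Fin M)))
            (f := fun i => lineMax δ b (cut (α i v) (β i v) g) v) (p := p) hp1
          rw [Finset.card_univ, Fintype.card_fin] at this
          exact this
      _ ≤ _ := by
          gcongr with i
          exact hGle i v hv
  have hcw := cw_nonneg m hp2
  have hcc : 0 ≤ cc m p := by unfold cc; positivity
  have hS : ∫⁻ y, ‖g y‖ₑ ^ p = ∫⁻ y, ‖f y‖ₑ ^ p := by
    apply lintegral_congr_ae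
    filter_upwards [hfg] with y hy
    rw [hy]
  calc ∫⁻ v in B, lineMax δ b f v ^ p
      ≤ ∫⁻ v in B, (M : ℝ≥0∞) ^ (p - 1) * ∑ i : Fin M, G i v := setLIntegral_mono' hB hpt
    _ ≤ ∫⁻ v in closedBall (0 : Vec (m + 1)) 1, (M : ℝ≥0∞) ^ (p - 1) * ∑ i : Fin M, G i v :=
        lintegral_mono_set hB1
    _ = (M : ℝ≥0∞) ^ (p - 1) * ∑ i : Fin M, ∫⁻ v in closedBall (0 : Vec (m + 1)) 1, G i v := by
        rw [lintegral_const_mul _ (Finset.measurable_sum _ fun i _ => hGm i),
          lintegral_finsetSum _ (fun i _ => hGm i)]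
    _ ≤ (M : ℝ≥0∞) ^ (p - 1) * ∑ _i : Fin M, ENNReal.ofReal ((8 * 8 ^ (m + 1)) ^ p * cc m p * N *
          (1 + Real.log (1 / δ)) ^ (p + 1)) * ∫⁻ y, ‖g y‖ₑ ^ p := by
        gcongr with i
        exact hGint i
    _ = (M : ℝ≥0∞) ^ (p - 1) * M * ENNReal.ofReal ((8 * 8 ^ (m + 1)) ^ p * cc m p * N *
          (1 + Real.log (1 / δ)) ^ (p + 1)) * ∫⁻ y, ‖f y‖ₑ ^ p := by
        rw [Finset.sum_const, Finset.card_univ, Fintype.card_fin, nsmul_eq_mul, hS]
        ring
    _ ≤ _ := by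
        gcongr
        have hpow : (M : ℝ≥0∞) ^ (p - 1) * M = ENNReal.ofReal ((M:ℝ) ^ p) := by
          rw [← ENNReal.ofReal_rpow_of_nonneg (by positivity) hp0.le, ENNReal.ofReal_natCast]
          rcases Nat.eq_zero_or_pos M with h0 | h0
          · subst h0
            simp [ENNReal.zero_rpow_of_pos hp0]
          · have hM0 : (M : ℝ≥0∞) ≠ 0 := by exact_mod_cast h0.ne'
            have := ENNReal.rpow_add (x := (M : ℝ≥0∞)) (p - 1) 1 hM0 (by simp)
            rw [ENNReal.rpow_one] at this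
            rw [← this]
            congr 1
            ring
        rw [hpow, ← ENNReal.ofReal_mul (by positivity)]
        apply ENNReal.ofReal_le_ofReal
        apply le_of_eq
        ring

end

end Pool.Agent.D0H26.WF
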