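import Pool.Agent.D0H26.WF.Sph
import Pool.Agent.H803R2.KakFTO

set_option autoImplicit false

/-!
The measure of the set of the faster lines which meet a given line of a wave-front family.
-/

open MeasureTheory Set ENNReal Metric

namespace Pool.Agent.D0H26.WF

open Pool.Agent.H803R2.KakFTO

/-- The integral of `min (3, 8 r / u)`. -/
theorem int_min {r : ℝ} (hr : 0 < r) :
    ∫⁻ u in Ioc (0:ℝ) 1, ENNReal.ofReal (min 3 (8 * r / u))
      ≤ ENNReal.ofReal (16 * r * Real.log (1 + 3 / (8 * r))) := by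
  have h1 : ∀ u ∈ Ioc (0:ℝ) 1, ENNReal.ofReal (min 3 (8 * r / u))
      ≤ ENNReal.ofReal (48 * r / (3 * u + 8 * r)) := by
    intro u hu
    apply ENNReal.ofReal_le_ofReal
    have hu0 : 0 < u := hu.1
    rcases le_total (3 * u) (8 * r) with h | h
    · refine (min_le_left _ _).trans ?_
      rw [le_div_iff₀ (by positivity)]
      linarith
    · refine (min_le_right _ _).trans ?_
      rw [div_le_div_iff₀ hu0 (by positivity)]
      nlinarith
  refine (setLIntegral_mono' measurableSet_Ioc h1).trans ?_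
  have hderiv : ∀ x ∈ uIcc (0:ℝ) 1, HasDerivAt (fun x => 16 * r * Real.log (3 * x + 8 * r))
      (48 * r / (3 * x + 8 * r)) x := by
    intro x hx
    rw [uIcc_of_le zero_le_one] at hx
    have hpos : 3 * x + 8 * r ≠ 0 := by have := hx.1; positivity
    have h2 : HasDerivAt (fun x : ℝ => 3 * x + 8 * r) 3 x := by
      simpa using ((hasDerivAt_id x).const_mul 3).add_const (8 * r)
    have h3 := (h2.log hpos).const_mul (16 * r)
    exact h3.congr_deriv (by ring)
  have hcont : ContinuousOn (fun x : ℝ => 48 * r / (3 * x + 8 * r)) (uIcc 0 1) := by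
    apply ContinuousOn.div (by fun_prop) (by fun_prop)
    intro x hx
    rw [uIcc_of_le zero_le_one] at hx
    have := hx.1
    positivity
  have hval := intervalIntegral.integral_eq_sub_of_hasDerivAt hderiv
    hcont.intervalIntegrable
  rw [← ofReal_integral_eq_lintegral_ofReal, ← intervalIntegral.integral_of_le zero_le_one, hval]
  · apply ENNReal.ofReal_le_ofReal
    rw [← mul_sub, ← Real.log_div (by positivity) (by positivity)]
    have : (3 * 1 + 8 * r) / (3 * 0 + 8 * r) = 1 + 3 / (8 * r) := by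
      field_simp
      ring
    rw [this]
  · exact (intervalIntegrable_iff_integrableOn_Ioc_of_le zero_le_one).1
      hcont.intervalIntegrable
  · filter_upwards [ae_restrict_mem measurableSet_Ioc] with x hx
    have := hx.1
    positivity

section

variable {m N : ℕ}

/-- The set of the pairs (line, height) of `W` at which the line is close to the line `v`. -/
def Near (r : ℝ) (W : Set (Vec (m + 1) × ℝ)) (b : Vec (m + 1) → Vec (m + 1)) (v : Vec (m + 1)) :
    Set (Vec (m + 1) × ℝ) :=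
  {q | q ∈ W ∧ ‖(b v + q.2 • v) - (b q.1 + q.2 • q.1)‖ ≤ 2 * r}

theorem measurableSet_Near {r : ℝ} {W : Set (Vec (m + 1) × ℝ)} (hW : MeasurableSet W)
    {b : Vec (m + 1) → Vec (m + 1)} (hb : Measurable b) (v : Vec (m + 1)) :
    MeasurableSet (Near r W b v) := by
  have h1 : Measurable (fun q : Vec (m + 1) × ℝ =>
      ‖(b v + q.2 • v) - (b q.1 + q.2 • q.1)‖) := by
    apply Measurable.norm
    apply Measurable.sub
    · fun_prop
    · exact (hb.comp measurable_fst).add (measurable_snd.smul measurable_fst)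
  have h2 : MeasurableSet {q : Vec (m + 1) × ℝ |
      ‖(b v + q.2 • v) - (b q.1 + q.2 • q.1)‖ ≤ 2 * r} := measurableSet_le h1 measurable_const
  exact hW.inter h2

/-- The two properties of the wave fronts which are used. -/
structure Fr (κ : Vec (m + 1) → Fin N) (b : Vec (m + 1) → Vec (m + 1)) (ρ : ℝ)
    (W : Set (Vec (m + 1) × ℝ)) : Prop where
  one : ∀ v v' s s', (v, s) ∈ W → (v', s') ∈ W → ‖v‖ = ‖v'‖ → κ v = κ v' →
    ‖v‖ * |s - s'| ≤ ‖(b v + s • v) - (b v' + s' • v')‖
  two : ∀ v v' s, (v, s) ∈ W → (v', s) ∈ W → ‖v‖ = ‖v'‖ → κ v = κ v' →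
    ρ * ‖v - v'‖ ≤ ‖(b v + s • v) - (b v' + s • v')‖

/-- One class of lines with slopes of modulus `c`. -/
theorem one_class {κ : Vec (m + 1) → Fin N} (hκ : Measurable κ)
    {b : Vec (m + 1) → Vec (m + 1)} (hb : Measurable b) {W : Set (Vec (m + 1) × ℝ)}
    (hW : MeasurableSet W) {ρ r : ℝ} (hρ : 0 < ρ) (hr : 0 < r) (hF : Fr κ b ρ W)
    {I : Set ℝ} (hI3 : volume I ≤ 3) (v : Vec (m + 1)) {c : ℝ}
    (hc : ‖v‖ < c) (j : Fin N) :
    ∫⁻ s in I, (volume : Measure (Vec (m + 1))).toSphere
        {θ | (c • (θ : Vec (m + 1)), s) ∈ Near r W b v ∧ κ (c • (θ : Vec (m + 1))) = j}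
      ≤ ENNReal.ofReal ((m + 1) * 2 ^ (m + 1) * (4 * r / (ρ * c)) ^ m) *
        ENNReal.ofReal (min 3 (8 * r / (c - ‖v‖))) := by
  have hc0 : 0 < c := (norm_nonneg v).trans_lt hc
  set σ := (volume : Measure (Vec (m + 1))).toSphere with hσ
  set Z : ℝ → Set (sphere (0 : Vec (m + 1)) 1) := fun s =>
    {θ | (c • (θ : Vec (m + 1)), s) ∈ Near r W b v ∧ κ (c • (θ : Vec (m + 1))) = j} with hZ
  have hZm : ∀ s, MeasurableSet (Z s) := by
    intro s
    have h1 : Measurable (fun θ : sphere (0 : Vec (m + 1)) 1 => c • (θ : Vec (m + 1))) :=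
      measurable_subtype_coe.const_smul c
    exact (((h1.prodMk measurable_const) (measurableSet_Near hW hb v))).inter
      ((hκ.comp h1) (measurableSet_singleton j))
  have hnorm : ∀ θ : sphere (0 : Vec (m + 1)) 1, ‖c • (θ : Vec (m + 1))‖ = c := by
    intro θ
    rw [norm_smul, Real.norm_eq_abs, abs_of_pos hc0]; simp
  set C0 : ℝ≥0∞ := ENNReal.ofReal ((m + 1) * 2 ^ (m + 1) * (4 * r / (ρ * c)) ^ m) with hC0
  have hZle : ∀ s, σ (Z s) ≤ C0 := by
    intro s
    apply sphere_diam m (hZm s) (by positivity)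
    intro θ hθ θ' hθ'
    have h1 := hF.two _ _ s hθ.1.1 hθ'.1.1 (by rw [hnorm, hnorm]) (by rw [hθ.2, hθ'.2])
    have h2 : ‖(b (c • (θ : Vec (m + 1))) + s • c • (θ : Vec (m + 1))) -
        (b (c • (θ' : Vec (m + 1))) + s • c • (θ' : Vec (m + 1)))‖ ≤ 4 * r := by
      have e : (b (c • (θ : Vec (m + 1))) + s • c • (θ : Vec (m + 1))) -
        (b (c • (θ' : Vec (m + 1))) + s • c • (θ' : Vec (m + 1)))
        = ((b v + s • v) - (b (c • (θ' : Vec (m + 1))) + s • c • (θ' : Vec (m + 1)))) -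
          ((b v + s • v) - (b (c • (θ : Vec (m + 1))) + s • c • (θ : Vec (m + 1)))) := by abel
      rw [e]
      refine (norm_sub_le _ _).trans ?_
      have h3 := hθ.1.2
      have h4 := hθ'.1.2
      exact (add_le_add h4 h3).trans (by linarith)
    have h5 : ‖c • (θ : Vec (m + 1)) - c • (θ' : Vec (m + 1))‖
        = c * ‖(θ : Vec (m + 1)) - θ'‖ := by
      rw [← smul_sub, norm_smul, Real.norm_eq_abs, abs_of_pos hc0]
    rw [h5] at h1
    rw [le_div_iff₀ (by positivity)]
    nlinarith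
  set S : Set ℝ := {s | (Z s).Nonempty} with hS
  rcases S.eq_empty_or_nonempty with h0 | ⟨s0, hs0⟩
  · have : ∀ s, σ (Z s) = 0 := by
      intro s
      have : Z s = ∅ := by
        rw [← Set.not_nonempty_iff_eq_empty]
        intro h
        have : s ∈ S := h
        rw [h0] at this
        exact this
      rw [this]; simp
    have h00 : ∫⁻ s in I, σ (Z s) = 0 := by
      rw [lintegral_congr this]; simp
    exact (le_of_eq h00).trans zero_le
  have hdiam : ∀ s ∈ S, s ∈ Icc (s0 - 4 * r / (c - ‖v‖)) (s0 + 4 * r / (c - ‖v‖)) := by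
    rintro s ⟨θ, hθ⟩
    obtain ⟨θ', hθ'⟩ := hs0
    have h1 := hF.one _ _ s s0 hθ.1.1 hθ'.1.1 (by rw [hnorm, hnorm]) (by rw [hθ.2, hθ'.2])
    rw [hnorm] at h1
    have h3 := hθ.1.2
    have h4 := hθ'.1.2
    have e : (b (c • (θ : Vec (m + 1))) + s • c • (θ : Vec (m + 1))) -
        (b (c • (θ' : Vec (m + 1))) + s0 • c • (θ' : Vec (m + 1)))
        = (((b v + s0 • v) - (b (c • (θ' : Vec (m + 1))) + s0 • c • (θ' : Vec (m + 1)))) -
          ((b v + s • v) - (b (c • (θ : Vec (m + 1))) + s • c • (θ : Vec (m + 1))))) +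
          (s - s0) • v := by
      rw [sub_smul]; abel
    have h2 : ‖(b (c • (θ : Vec (m + 1))) + s • c • (θ : Vec (m + 1))) -
        (b (c • (θ' : Vec (m + 1))) + s0 • c • (θ' : Vec (m + 1)))‖ ≤ 4 * r + |s - s0| * ‖v‖ := by
      rw [e]
      refine (norm_add_le _ _).trans ?_
      rw [norm_smul, Real.norm_eq_abs]
      gcongr
      refine (norm_sub_le _ _).trans ?_
      exact (add_le_add h4 h3).trans (by linarith)
    have h5 : |s - s0| ≤ 4 * r / (c - ‖v‖) := by
      rw [le_div_iff₀ (by linarith)]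
      nlinarith
    rw [abs_le] at h5
    constructor <;> linarith [h5.1, h5.2]
  set J : Set ℝ := Icc (s0 - 4 * r / (c - ‖v‖)) (s0 + 4 * r / (c - ‖v‖)) with hJ
  calc ∫⁻ s in I, σ (Z s) ≤ ∫⁻ s in I, J.indicator (fun _ => C0) s := by
        apply lintegral_mono
        intro s
        by_cases hs : s ∈ S
        · rw [indicator_of_mem (hdiam s hs)]
          exact hZle s
        · have : Z s = ∅ := Set.not_nonempty_iff_eq_empty.1 hs
          simp only [this, measure_empty]
          exact zero_le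
    _ = C0 * volume.restrict I J := by
        rw [lintegral_indicator measurableSet_Icc, setLIntegral_const]
    _ ≤ C0 * ENNReal.ofReal (min 3 (8 * r / (c - ‖v‖))) := by
        gcongr
        have hpos : 0 < c - ‖v‖ := by linarith
        rw [ENNReal.ofReal_min]
        apply le_min
        · refine (measure_mono (subset_univ J)).trans ?_
          rw [Measure.restrict_apply_univ]
          refine hI3.trans ?_
          simp
        · refine (Measure.restrict_apply_le I J).trans ?_
          rw [Real.volume_Icc]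
          apply ENNReal.ofReal_le_ofReal
          apply le_of_eq
          ring

/-- **The pair bound.** -/
theorem pair {κ : Vec (m + 1) → Fin N} (hκ : Measurable κ)
    {b : Vec (m + 1) → Vec (m + 1)} (hb : Measurable b) {W : Set (Vec (m + 1) × ℝ)}
    (hW : MeasurableSet W) {ρ r : ℝ} (hρ : 0 < ρ) (hr : 0 < r) (hF : Fr κ b ρ W)
    {I : Set ℝ} (hI3 : volume I ≤ 3) (v : Vec (m + 1)) :
    ∫⁻ v' in {v' | ‖v‖ ≤ ‖v'‖ ∧ ‖v'‖ ≤ 1}, ∫⁻ s in I, (Near r W b v).indicator 1 (v', s)
      ≤ N * ENNReal.ofReal ((m + 1) * 2 ^ (m + 1) * (4 * r / ρ) ^ m *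
        (16 * r * Real.log (1 + 3 / (8 * r)))) := by
  set σ := (volume : Measure (Vec (m + 1))).toSphere with hσ
  have hQ := measurableSet_Near (r := r) hW hb v
  have hQi : Measurable ((Near r W b v).indicator (1 : Vec (m + 1) × ℝ → ℝ≥0∞)) :=
    measurable_one.indicator hQ
  set G : Vec (m + 1) → ℝ≥0∞ := fun v' => ∫⁻ s in I, (Near r W b v).indicator 1 (v', s) with hG
  have hGm : Measurable G := hQi.lintegral_prod_right'
  have hB : MeasurableSet {v' : Vec (m + 1) | ‖v‖ ≤ ‖v'‖ ∧ ‖v'‖ ≤ 1} :=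
    (measurableSet_le measurable_const measurable_norm).inter
      (measurableSet_le measurable_norm measurable_const)
  rw [← lintegral_indicator hB, polar_out m (hGm.indicator hB)]
  have hpt : ∀ c ∈ Ioi (0:ℝ), ENNReal.ofReal (c ^ m) *
      ∫⁻ θ : sphere (0 : Vec (m + 1)) 1,
        {v' : Vec (m + 1) | ‖v‖ ≤ ‖v'‖ ∧ ‖v'‖ ≤ 1}.indicator G (c • (θ : Vec (m + 1))) ∂σ
      ≤ (Icc ‖v‖ 1).indicator (fun c => N * ENNReal.ofReal ((m + 1) * 2 ^ (m + 1) *
        (4 * r / ρ) ^ m) * (if ‖v‖ < c then ENNReal.ofReal (min 3 (8 * r / (c - ‖v‖))) else ∞)) c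
      := by
    intro c hc
    have hc0 : 0 < c := hc
    have hnorm : ∀ θ : sphere (0 : Vec (m + 1)) 1, ‖c • (θ : Vec (m + 1))‖ = c := by
      intro θ
      rw [norm_smul, Real.norm_eq_abs, abs_of_pos hc0]; simp
    by_cases hcI : c ∈ Icc ‖v‖ 1
    swap
    · have : ∀ θ : sphere (0 : Vec (m + 1)) 1,
          {v' : Vec (m + 1) | ‖v‖ ≤ ‖v'‖ ∧ ‖v'‖ ≤ 1}.indicator G (c • (θ : Vec (m + 1))) = 0 := by
        intro θ
        rw [indicator_of_notMem]
        intro h
        apply hcI
        have h1 : ‖v‖ ≤ ‖c • (θ : Vec (m + 1))‖ := h.1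
        have h2 : ‖c • (θ : Vec (m + 1))‖ ≤ 1 := h.2
        rw [hnorm] at h1 h2
        exact ⟨h1, h2⟩
      simp_rw [this]
      simp
    rw [indicator_of_mem hcI]
    have e1 : ∀ θ : sphere (0 : Vec (m + 1)) 1,
          {v' : Vec (m + 1) | ‖v‖ ≤ ‖v'‖ ∧ ‖v'‖ ≤ 1}.indicator G (c • (θ : Vec (m + 1)))
          = G (c • (θ : Vec (m + 1))) := by
      intro θ
      rw [indicator_of_mem]
      show ‖v‖ ≤ ‖c • (θ : Vec (m + 1))‖ ∧ ‖c • (θ : Vec (m + 1))‖ ≤ 1
      rw [hnorm]
      exact hcI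
    simp_rw [e1]
    rcases hcI.1.eq_or_lt with hlt | hlt
    · -- `c = ‖v‖`
      rw [if_neg (by linarith)]
      rcases Nat.eq_zero_or_pos N with hN | hN
      · exfalso
        subst hN
        exact (κ 0).elim0
      · rw [ENNReal.mul_top]
        · exact le_top
        · apply mul_ne_zero
          · exact_mod_cast hN.ne'
          · rw [Ne, ENNReal.ofReal_eq_zero, not_le]
            positivity
    rw [if_pos hlt]
    have hsm : Measurable (fun q : sphere (0 : Vec (m + 1)) 1 × ℝ =>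
        (c • (q.1 : Vec (m + 1)), q.2)) :=
      ((measurable_subtype_coe.comp measurable_fst).const_smul c).prodMk measurable_snd
    have e2 : ∫⁻ θ : sphere (0 : Vec (m + 1)) 1, G (c • (θ : Vec (m + 1))) ∂σ
        = ∫⁻ s in I, σ {θ | (c • (θ : Vec (m + 1)), s) ∈ Near r W b v} := by
      simp only [hG]
      have hm1 : Measurable (fun q : sphere (0 : Vec (m + 1)) 1 × ℝ =>
          (Near r W b v).indicator (1 : Vec (m + 1) × ℝ → ℝ≥0∞) (c • (q.1 : Vec (m + 1)), q.2)) :=
        hQi.comp hsm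
      rw [lintegral_lintegral_swap hm1.aemeasurable]
      apply lintegral_congr
      intro s
      have hms : MeasurableSet {θ : sphere (0 : Vec (m + 1)) 1 |
          (c • (θ : Vec (m + 1)), s) ∈ Near r W b v} :=
        ((measurable_subtype_coe.const_smul c).prodMk measurable_const) hQ
      rw [← lintegral_indicator_one hms]
      rfl
    rw [e2]
    have e3 : ∀ s, σ {θ | (c • (θ : Vec (m + 1)), s) ∈ Near r W b v}
        ≤ ∑ j : Fin N, σ {θ | (c • (θ : Vec (m + 1)), s) ∈ Near r W b v ∧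
          κ (c • (θ : Vec (m + 1))) = j} := by
      intro s
      have hsub : {θ : sphere (0 : Vec (m + 1)) 1 | (c • (θ : Vec (m + 1)), s) ∈ Near r W b v}
          ⊆ ⋃ j ∈ (Finset.univ : Finset (Fin N)), {θ | (c • (θ : Vec (m + 1)), s) ∈ Near r W b v ∧
          κ (c • (θ : Vec (m + 1))) = j} := by
        intro θ hθ
        simp only [Finset.mem_univ, iUnion_true, mem_iUnion]
        exact ⟨_, hθ, rfl⟩
      exact (measure_mono hsub).trans (measure_biUnion_finset_le _ _)
    have hmeas : ∀ j : Fin N, Measurable (fun s : ℝ => σ {θ | (c • (θ : Vec (m + 1)), s) ∈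
        Near r W b v ∧ κ (c • (θ : Vec (m + 1))) = j}) := by
      intro j
      have hms : MeasurableSet {q : sphere (0 : Vec (m + 1)) 1 × ℝ |
          (c • (q.1 : Vec (m + 1)), q.2) ∈ Near r W b v ∧ κ (c • (q.1 : Vec (m + 1))) = j} :=
        (hsm hQ).inter ((hκ.comp ((measurable_subtype_coe.comp measurable_fst).const_smul c))
          (measurableSet_singleton j))
      exact measurable_measure_prodMk_right hms
    calc ENNReal.ofReal (c ^ m) * ∫⁻ s in I, σ {θ | (c • (θ : Vec (m + 1)), s) ∈ Near r W b v}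
        ≤ ENNReal.ofReal (c ^ m) * ∫⁻ s in I, ∑ j : Fin N,
            σ {θ | (c • (θ : Vec (m + 1)), s) ∈ Near r W b v ∧
              κ (c • (θ : Vec (m + 1))) = j} := by
          gcongr with s
          exact e3 s
      _ = ENNReal.ofReal (c ^ m) * ∑ j : Fin N, ∫⁻ s in I,
            σ {θ | (c • (θ : Vec (m + 1)), s) ∈ Near r W b v ∧
              κ (c • (θ : Vec (m + 1))) = j} := by
          rw [lintegral_finsetSum _ (fun j _ => hmeas j)]
      _ ≤ ENNReal.ofReal (c ^ m) * ∑ _j : Fin N,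
            ENNReal.ofReal ((m + 1) * 2 ^ (m + 1) * (4 * r / (ρ * c)) ^ m) *
            ENNReal.ofReal (min 3 (8 * r / (c - ‖v‖))) := by
          gcongr with j
          exact one_class hκ hb hW hρ hr hF hI3 v hlt j
      _ = _ := by
          rw [Finset.sum_const, Finset.card_univ, Fintype.card_fin, nsmul_eq_mul]
          have e4 : ENNReal.ofReal (c ^ m) *
              ENNReal.ofReal ((m + 1) * 2 ^ (m + 1) * (4 * r / (ρ * c)) ^ m)
              = ENNReal.ofReal ((m + 1) * 2 ^ (m + 1) * (4 * r / ρ) ^ m) := by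
            rw [← ENNReal.ofReal_mul (by positivity)]
            congr 1
            have : (4 * r / (ρ * c)) ^ m * c ^ m = (4 * r / ρ) ^ m := by
              rw [← mul_pow]
              congr 1
              field_simp
            rw [← this]; ring
          calc _ = (N:ℝ≥0∞) * (ENNReal.ofReal (c ^ m) *
              ENNReal.ofReal ((m + 1) * 2 ^ (m + 1) * (4 * r / (ρ * c)) ^ m)) *
              ENNReal.ofReal (min 3 (8 * r / (c - ‖v‖))) := by ring
            _ = _ := by rw [e4]
  refine (setLIntegral_mono' measurableSet_Ioi hpt).trans ?_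
  set C1 : ℝ≥0∞ := N * ENNReal.ofReal ((m + 1) * 2 ^ (m + 1) * (4 * r / ρ) ^ m) with hC1
  have hC1t : C1 ≠ ∞ := ENNReal.mul_ne_top (by simp) ENNReal.ofReal_ne_top
  calc ∫⁻ c in Ioi (0:ℝ), (Icc ‖v‖ 1).indicator (fun c => C1 *
        (if ‖v‖ < c then ENNReal.ofReal (min 3 (8 * r / (c - ‖v‖))) else ∞)) c
      ≤ ∫⁻ c, (Icc ‖v‖ 1).indicator (fun c => C1 *
        (if ‖v‖ < c then ENNReal.ofReal (min 3 (8 * r / (c - ‖v‖))) else ∞)) c :=
        setLIntegral_le_lintegral _ _
    _ = ∫⁻ c in Icc ‖v‖ 1, C1 *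
        (if ‖v‖ < c then ENNReal.ofReal (min 3 (8 * r / (c - ‖v‖))) else ∞) :=
        lintegral_indicator measurableSet_Icc _
    _ = ∫⁻ c in Ioc ‖v‖ 1, C1 *
        (if ‖v‖ < c then ENNReal.ofReal (min 3 (8 * r / (c - ‖v‖))) else ∞) :=
        setLIntegral_congr Ioc_ae_eq_Icc.symm
    _ = ∫⁻ c in Ioc ‖v‖ 1, C1 * ENNReal.ofReal (min 3 (8 * r / (c - ‖v‖))) := by
        apply setLIntegral_congr_fun measurableSet_Ioc
        intro c hc
        simp only
        rw [if_pos hc.1]
    _ = C1 * ∫⁻ c in Ioc ‖v‖ 1, ENNReal.ofReal (min 3 (8 * r / (c - ‖v‖))) :=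
        lintegral_const_mul' _ _ hC1t
    _ ≤ C1 * ∫⁻ u in Ioc (0:ℝ) 1, ENNReal.ofReal (min 3 (8 * r / u)) := by
        refine mul_le_mul' le_rfl ?_
        rw [← lintegral_indicator measurableSet_Ioc, ← lintegral_indicator measurableSet_Ioc,
          ← lintegral_add_right_eq_self _ ‖v‖]
        apply lintegral_mono
        intro u
        by_cases hu : u + ‖v‖ ∈ Ioc ‖v‖ 1
        · have h0 : 0 < u := by linarith [hu.1]
          have h1 : u ≤ 1 := by linarith [hu.2, norm_nonneg v]
          simp only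
          rw [indicator_of_mem hu, indicator_of_mem (by exact ⟨h0, h1⟩)]
          rw [add_sub_cancel_right]
        · simp only
          rw [indicator_of_notMem hu]
          exact zero_le
    _ ≤ C1 * ENNReal.ofReal (16 * r * Real.log (1 + 3 / (8 * r))) := by
        gcongr
        exact int_min hr
    _ = _ := by
        rw [hC1, mul_assoc, ← ENNReal.ofReal_mul (by positivity)]

end

end Pool.Agent.D0H26.WF
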