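import Pool.Agent.D0H26.WF.Front

set_option autoImplicit false

/-!
The estimate for all heights of one interval of length three.
-/

open MeasureTheory Set ENNReal Metric

namespace Pool.Agent.D0H26.WF

open Pool.Agent.H803R2.KakFTO Pool.Agent.H803R2.Kak Pool.Agent.H805R3.Kk.Gen

section

variable {m N : ℕ}

/-- The estimate for the heights close to the ends. -/
theorem edge_est {B : Set (Vec (m + 1))} (hB : MeasurableSet B)
    {b : Vec (m + 1) → Vec (m + 1)} {α β : Vec (m + 1) → EReal}
    (hα : Measurable α) (hβ : Measurable β) {δ : ℝ} (hδ : 0 < δ) (hδ1 : δ < 1) {J : ℕ}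
    (hJ : (1 / 2 : ℝ) ^ J ≤ δ) {I : Set ℝ} {p : ℝ} (hp : (m:ℝ) + 2 ≤ p)
    {F : Vec (m + 1) × ℝ → ℝ≥0∞} (hF : Measurable F) :
    ∫⁻ v in closedBall (0 : Vec (m + 1)) 1,
        (∫⁻ s in I, (We B α β J).indicator 1 (v, s) * moll (2 * δ) F (b v + s • v, s)) ^ p
      ≤ ENNReal.ofReal (2 ^ (p - m - 2)) * ∫⁻ x, F x ^ p := by
  have hr : 0 < 2 * δ := by linarith
  have hm0 : (0:ℝ) ≤ m := Nat.cast_nonneg m
  have hp1 : 1 ≤ p := by linarith
  have hv1 := v1_pos m
  have hWm : MeasurableSet (We B α β J) :=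
    (measurableSet_Life hB hα hβ).inter (measurableSet_Edge hα hβ _)
  have hFp : Measurable (fun x => F x ^ p) := hF.pow_const _
  set V := volume (closedBall (0 : Vec (m + 1)) (2 * δ)) with hV
  have hpt : ∀ v : Vec (m + 1),
      (∫⁻ s in I, (We B α β J).indicator 1 (v, s) * moll (2 * δ) F (b v + s • v, s)) ^ p
      ≤ V⁻¹ * (∫⁻ x, F x ^ p) * ENNReal.ofReal ((2 * δ) ^ (p - 1)) := by
    intro v
    set S : Set ℝ := {s : ℝ | (v, s) ∈ We B α β J} with hS
    have hSm : MeasurableSet S := measurable_prodMk_left hWm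
    have hline : Measurable (fun s : ℝ => (b v + s • v, s)) :=
      (measurable_const.add (measurable_id.smul measurable_const)).prodMk measurable_id
    have hG : Measurable (fun s : ℝ => moll (2 * δ) F (b v + s • v, s)) :=
      (measurable_moll hF).comp hline
    have e1 : ∫⁻ s in I, (We B α β J).indicator 1 (v, s) * moll (2 * δ) F (b v + s • v, s)
        = ∫⁻ s in S, moll (2 * δ) F (b v + s • v, s) ∂(volume.restrict I) := by
      rw [← lintegral_indicator hSm]
      apply lintegral_congr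
      intro s
      by_cases h : (v, s) ∈ We B α β J
      · rw [indicator_of_mem h, indicator_of_mem (by exact h)]; simp
      · rw [indicator_of_notMem h, indicator_of_notMem (by exact h)]; simp
    rw [e1]
    have h1 := lintegral_rpow_le1 ((volume.restrict I).restrict S) hp1 hG.aemeasurable
    refine h1.trans ?_
    have h2 : ((volume.restrict I).restrict S) univ ≤ ENNReal.ofReal (2 * δ) := by
      rw [Measure.restrict_apply_univ]
      refine (Measure.restrict_apply_le _ _).trans ((We_len hB hα hβ J v).trans ?_)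
      apply ENNReal.ofReal_le_ofReal
      linarith
    have h3 : ∫⁻ s, moll (2 * δ) F (b v + s • v, s) ^ p ∂((volume.restrict I).restrict S)
        ≤ V⁻¹ * ∫⁻ x, F x ^ p := by
      calc ∫⁻ s, moll (2 * δ) F (b v + s • v, s) ^ p ∂((volume.restrict I).restrict S)
          ≤ ∫⁻ s, moll (2 * δ) F (b v + s • v, s) ^ p :=
            lintegral_mono' (Measure.restrict_le_self.trans Measure.restrict_le_self) le_rfl
        _ ≤ ∫⁻ s, V⁻¹ * ∫⁻ y, F (y, s) ^ p := by
            apply lintegral_mono
            intro s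
            refine (moll_rpow_le1 hp1 hr hF _).trans ?_
            exact moll_le (fun x => F x ^ p) _ _
        _ = V⁻¹ * ∫⁻ s, ∫⁻ y, F (y, s) ^ p := by
            rw [lintegral_const_mul _ hFp.lintegral_prod_left']
        _ = V⁻¹ * ∫⁻ x, F x ^ p := by
            rw [Measure.volume_eq_prod, lintegral_prod_symm _ hFp.aemeasurable]
    calc _ ≤ (V⁻¹ * ∫⁻ x, F x ^ p) * (ENNReal.ofReal (2 * δ)) ^ (p - 1) := by
          refine mul_le_mul' h3 ?_
          exact ENNReal.rpow_le_rpow h2 (by linarith)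
      _ = _ := by rw [ENNReal.ofReal_rpow_of_nonneg hr.le (by linarith)]
  calc ∫⁻ v in closedBall (0 : Vec (m + 1)) 1,
        (∫⁻ s in I, (We B α β J).indicator 1 (v, s) * moll (2 * δ) F (b v + s • v, s)) ^ p
      ≤ ∫⁻ _v in closedBall (0 : Vec (m + 1)) 1,
        V⁻¹ * (∫⁻ x, F x ^ p) * ENNReal.ofReal ((2 * δ) ^ (p - 1)) := by
        apply lintegral_mono
        intro v
        exact hpt v
    _ = (V⁻¹ * ENNReal.ofReal ((2 * δ) ^ (p - 1)) * volume (closedBall (0 : Vec (m + 1)) 1)) *
          ∫⁻ x, F x ^ p := by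
        rw [lintegral_const, Measure.restrict_apply_univ]; ring
    _ = ENNReal.ofReal ((2 * δ) ^ (p - m - 2)) * ∫⁻ x, F x ^ p := by
        congr 1
        rw [hV, vol_eq m hr, vol_eq m one_pos, ← ENNReal.ofReal_inv_of_pos (by positivity),
          ← ENNReal.ofReal_mul (by positivity), ← ENNReal.ofReal_mul (by positivity)]
        congr 1
        have e5 : (2 * δ) ^ (p - 1) = (2 * δ) ^ (p - m - 2) * (2 * δ) ^ (m + 1) := by
          rw [← Real.rpow_natCast (2 * δ) (m + 1), ← Real.rpow_add hr]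
          congr 1
          push_cast
          ring
        rw [e5, one_pow]
        field_simp
    _ ≤ _ := by
        gcongr
        · linarith
        · linarith

/-- The constant for one interval of heights. -/
noncomputable def cc (m : ℕ) (p : ℝ) : ℝ := 3 ^ (p - 1) * (2 ^ (p - m - 2) + 3 * cw m p)

/-- The number of windows. -/
theorem exists_J {δ : ℝ} (hδ : 0 < δ) (hδ1 : δ < 1) : ∃ J : ℕ, (1 / 2 : ℝ) ^ J ≤ δ ∧
    (J:ℝ) + 2 ≤ 3 * (1 + Real.log (1 / δ)) := by
  have hlog : 0 ≤ Real.log (1 / δ) := Real.log_nonneg (by rw [le_div_iff₀ hδ]; linarith)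
  refine ⟨⌈Real.log (1 / δ) / Real.log 2⌉₊, ?_, ?_⟩
  · have h1 := Nat.le_ceil (Real.log (1 / δ) / Real.log 2)
    set J := ⌈Real.log (1 / δ) / Real.log 2⌉₊
    have hl2 : 0 < Real.log 2 := Real.log_pos (by norm_num)
    rw [div_le_iff₀ hl2] at h1
    have h2 : Real.log ((1 / 2 : ℝ) ^ J) ≤ Real.log δ := by
      rw [Real.log_pow, one_div, Real.log_inv]
      rw [one_div, Real.log_inv] at h1
      linarith
    exact (Real.log_le_log_iff (by positivity) hδ).1 h2
  · have h1 := Nat.ceil_lt_add_one (a := Real.log (1 / δ) / Real.log 2)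
      (div_nonneg hlog (Real.log_nonneg (by norm_num)))
    have hl2 : 0.6931471803 < Real.log 2 := Real.log_two_gt_d9
    have h2 : Real.log (1 / δ) / Real.log 2 ≤ 3 * Real.log (1 / δ) := by
      rw [div_le_iff₀ (by linarith)]
      nlinarith
    linarith

theorem log_bound {δ : ℝ} (hδ : 0 < δ) (hδ1 : δ < 1) :
    Real.log (1 + 3 / (8 * (2 * δ))) ≤ 1 + Real.log (1 / δ) := by
  have h1 : 1 + 3 / (8 * (2 * δ)) ≤ Real.exp 1 * (1 / δ) := by
    have he := Real.exp_one_gt_d9
    have e : 1 + 3 / (8 * (2 * δ)) = (δ + 3 / 16) / δ := by field_simp; ring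
    have e2 : Real.exp 1 * (1 / δ) = Real.exp 1 / δ := by ring
    rw [e, e2]
    gcongr
    linarith
  calc Real.log (1 + 3 / (8 * (2 * δ))) ≤ Real.log (Real.exp 1 * (1 / δ)) :=
        Real.log_le_log (by positivity) h1
    _ = _ := by rw [Real.log_mul (by positivity) (by positivity), Real.log_exp]

/-- **The estimate for one interval of heights.** -/
theorem chunk {κ : Vec (m + 1) → Fin N} (hκ : Measurable κ) {B : Set (Vec (m + 1))}
    (hB : MeasurableSet B)
    {b : Vec (m + 1) → Vec (m + 1)} (hb : Measurable b) {α β : Vec (m + 1) → EReal}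
    (hα : Measurable α) (hβ : Measurable β) (hFr : Front κ B b α β) {δ : ℝ} (hδ : 0 < δ)
    (hδ1 : δ < 1) {I : Set ℝ} (hI : MeasurableSet I) (hI3 : volume I ≤ 3)
    {p : ℝ} (hp : (m:ℝ) + 2 ≤ p) (hm : 1 ≤ m)
    {F : Vec (m + 1) × ℝ → ℝ≥0∞} (hF : Measurable F) :
    ∫⁻ v in closedBall (0 : Vec (m + 1)) 1,
        (∫⁻ s in I, (Life B α β).indicator 1 (v, s) * moll (2 * δ) F (b v + s • v, s)) ^ p
      ≤ ENNReal.ofReal (cc m p * N * (1 + Real.log (1 / δ)) ^ (p + 1)) * ∫⁻ x, F x ^ p := by
  obtain ⟨J, hJ, hJ2⟩ := exists_J hδ hδ1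
  have hm' : (1:ℝ) ≤ m := by exact_mod_cast hm
  have hp2 : 2 < p := by linarith
  have hr : 0 < 2 * δ := by linarith
  have hlog : 0 ≤ Real.log (1 / δ) := Real.log_nonneg (by rw [le_div_iff₀ hδ]; linarith)
  set Λ := 1 + Real.log (1 / δ) with hΛ
  have hΛ1 : 1 ≤ Λ := by linarith
  have hN : (1:ℝ) ≤ N := by
    have : 0 < N := (κ 0).pos
    exact_mod_cast this
  set g : Vec (m + 1) → ℝ → ℝ≥0∞ := fun v s => moll (2 * δ) F (b v + s • v, s) with hg
  set A : ℕ → Vec (m + 1) → ℝ≥0∞ := fun j v =>
    ∫⁻ s in I, (if j = J + 1 then We B α β J else Wj B α β j).indicator 1 (v, s) * g v s with hA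
  have hgm : Measurable (fun q : Vec (m + 1) × ℝ => g q.1 q.2) := by
    apply (measurable_moll hF).comp
    exact ((hb.comp measurable_fst).add (measurable_snd.smul measurable_fst)).prodMk measurable_snd
  have hWmeas : ∀ j, MeasurableSet (if j = J + 1 then We B α β J else Wj B α β j) := by
    intro j
    split_ifs
    · exact (measurableSet_Life hB hα hβ).inter (measurableSet_Edge hα hβ _)
    · exact measurableSet_Wj hB hα hβ j
  have hterm : ∀ j, Measurable (fun q : Vec (m + 1) × ℝ =>
      (if j = J + 1 then We B α β J else Wj B α β j).indicator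
        (1 : Vec (m + 1) × ℝ → ℝ≥0∞) (q.1, q.2) * g q.1 q.2) := fun j =>
    (measurable_one.indicator (hWmeas j)).mul hgm
  have hAm : ∀ j, Measurable (A j) := fun j => (hterm j).lintegral_prod_right'
  have hpt : ∀ v, ∫⁻ s in I, (Life B α β).indicator 1 (v, s) * g v s
      ≤ ∑ j ∈ Finset.range (J + 2), A j v := by
    intro v
    simp only [hA]
    have htv : ∀ j, Measurable (fun s : ℝ =>
        (if j = J + 1 then We B α β J else Wj B α β j).indicator
        (1 : Vec (m + 1) × ℝ → ℝ≥0∞) (v, s) * g v s) := fun j =>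
      (hterm j).comp measurable_prodMk_left
    rw [← lintegral_finsetSum _ (fun j _ => htv j)]
    apply lintegral_mono
    intro s
    simp only
    by_cases hL : (v, s) ∈ Life B α β
    swap
    · rw [indicator_of_notMem hL]; simp
    rw [indicator_of_mem hL, ← Finset.sum_mul]
    gcongr
    simp only [Pi.one_apply]
    rcases cover B α β J (v, s) hL with h | ⟨j, hj, h⟩
    · have hmem : J + 1 ∈ Finset.range (J + 2) := by rw [Finset.mem_range]; omega
      refine le_trans ?_ (Finset.single_le_sum (fun i _ => zero_le) hmem)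
      simp only [if_true]
      rw [indicator_of_mem h]; simp
    · have hj' := Finset.mem_range.1 hj
      have hmem : j ∈ Finset.range (J + 2) := by rw [Finset.mem_range]; omega
      refine le_trans ?_ (Finset.single_le_sum (fun i _ => zero_le) hmem)
      rw [if_neg (by omega), indicator_of_mem h]; simp
  have hcw := cw_nonneg m hp2
  have hbound : ∀ j ∈ Finset.range (J + 2), ∫⁻ v in closedBall (0 : Vec (m + 1)) 1, A j v ^ p
      ≤ (if j = J + 1 then ENNReal.ofReal (2 ^ (p - m - 2)) else
        ENNReal.ofReal (cw m p * N * Λ)) * ∫⁻ x, F x ^ p := by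
    intro j hj
    by_cases h : j = J + 1
    · simp only [hA, if_pos h]
      exact edge_est hB hα hβ hδ hδ1 hJ hp hF
    · simp only [hA, if_neg h]
      have hW := window hκ hb (measurableSet_Wj hB hα hβ j) (ρ := (1 / 2) ^ j) (r := 2 * δ)
        (by positivity) (pow_le_one₀ (by norm_num) (by norm_num)) hr
        (front_Fr hFr (by positivity) (Wj_sub B α β j)) hI hI3
        (fun v => Wj_len hB hα hβ j hI3 v) hp hm hF
      refine hW.trans ?_
      gcongr
      exact log_bound hδ hδ1
  calc ∫⁻ v in closedBall (0 : Vec (m + 1)) 1,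
        (∫⁻ s in I, (Life B α β).indicator 1 (v, s) * g v s) ^ p
      ≤ ∫⁻ v in closedBall (0 : Vec (m + 1)) 1,
          ((J + 2 : ℕ) : ℝ≥0∞) ^ (p - 1) * ∑ j ∈ Finset.range (J + 2), A j v ^ p := by
        apply lintegral_mono
        intro v
        simp only
        refine (ENNReal.rpow_le_rpow (hpt v) (by linarith)).trans ?_
        have := ENNReal.rpow_sum_le_const_mul_sum_rpow (s := Finset.range (J + 2))
          (f := fun j => A j v) (p := p) (by linarith)
        rw [Finset.card_range] at this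
        exact this
    _ = ((J + 2 : ℕ) : ℝ≥0∞) ^ (p - 1) * ∑ j ∈ Finset.range (J + 2),
          ∫⁻ v in closedBall (0 : Vec (m + 1)) 1, A j v ^ p := by
        rw [lintegral_const_mul _ (Finset.measurable_sum _ fun j _ => (hAm j).pow_const _),
          lintegral_finsetSum _ (fun j _ => (hAm j).pow_const _)]
    _ ≤ ((J + 2 : ℕ) : ℝ≥0∞) ^ (p - 1) * ∑ j ∈ Finset.range (J + 2),
          (if j = J + 1 then ENNReal.ofReal (2 ^ (p - m - 2)) else
          ENNReal.ofReal (cw m p * N * Λ)) * ∫⁻ x, F x ^ p := by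
        gcongr with j hj
        exact hbound j hj
    _ = (((J + 2 : ℕ) : ℝ≥0∞) ^ (p - 1) * (((J + 1 : ℕ) : ℝ≥0∞) *
          ENNReal.ofReal (cw m p * N * Λ) + ENNReal.ofReal (2 ^ (p - m - 2)))) *
          ∫⁻ x, F x ^ p := by
        rw [← Finset.sum_mul, Finset.sum_range_succ, if_pos rfl,
          Finset.sum_congr rfl (fun j hj => if_neg (by
            have := Finset.mem_range.1 hj
            omega)), Finset.sum_const, Finset.card_range, nsmul_eq_mul]
        ring
    _ ≤ _ := by
        gcongr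
        have e1 : ((J + 2 : ℕ) : ℝ≥0∞) = ENNReal.ofReal ((J:ℝ) + 2) := by
          rw [← ENNReal.ofReal_natCast]; push_cast; rfl
        have e2 : ((J + 1 : ℕ) : ℝ≥0∞) = ENNReal.ofReal ((J:ℝ) + 1) := by
          rw [← ENNReal.ofReal_natCast]; push_cast; rfl
        rw [e1, e2, ENNReal.ofReal_rpow_of_nonneg (by positivity) (by linarith),
          ← ENNReal.ofReal_mul (by positivity),
          ← ENNReal.ofReal_add (by positivity) (by positivity),
          ← ENNReal.ofReal_mul (by positivity)]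
        apply ENNReal.ofReal_le_ofReal
        have b1 : ((J:ℝ) + 2) ^ (p - 1) ≤ (3 * Λ) ^ (p - 1) :=
          Real.rpow_le_rpow (by positivity) hJ2 (by linarith)
        have b2 : ((J:ℝ) + 1) * (cw m p * N * Λ) + 2 ^ (p - m - 2)
            ≤ (2 ^ (p - m - 2) + 3 * cw m p) * (N * Λ ^ (2:ℕ)) := by
          have c1 : ((J:ℝ) + 1) ≤ 3 * Λ := by linarith
          have c2 : ((J:ℝ) + 1) * (cw m p * N * Λ) ≤ 3 * Λ * (cw m p * N * Λ) := by gcongr
          have c3 : (1:ℝ) ≤ N * Λ ^ (2:ℕ) := by
            have : (1:ℝ) ≤ Λ ^ (2:ℕ) := one_le_pow₀ hΛ1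
            nlinarith
          have c4 : (0:ℝ) ≤ 2 ^ (p - m - 2) := by positivity
          nlinarith
        calc ((J:ℝ) + 2) ^ (p - 1) * (((J:ℝ) + 1) * (cw m p * N * Λ) + 2 ^ (p - m - 2))
            ≤ (3 * Λ) ^ (p - 1) * ((2 ^ (p - m - 2) + 3 * cw m p) * (N * Λ ^ (2:ℕ))) := by
              gcongr
          _ = cc m p * N * Λ ^ (p + 1) := by
              have e5 : Λ ^ (p + 1) = Λ ^ (p - 1) * Λ ^ (2:ℕ) := by
                rw [← Real.rpow_natCast Λ 2, ← Real.rpow_add (by linarith)]
                congr 1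
                push_cast
                ring
              rw [e5, Real.mul_rpow (by norm_num) (by linarith), cc]
              ring

end

end Pool.Agent.D0H26.WF
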