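import Pool.Agent.D0H26.WF.Pair
import Pool.Agent.D0H26.WF.OSchur
import Pool.Agent.H805R3.Kk.Tube

set_option autoImplicit false

/-!
The estimate for one window of heights.
-/

open MeasureTheory Set ENNReal Metric

namespace Pool.Agent.D0H26.WF

open Pool.Agent.H803R2.KakFTO Pool.Agent.H803R2.Kak

section

variable {m N : ℕ}

/-- The kernel of the averages over the parts of the tubes in the window `W`. -/
noncomputable def ker (r : ℝ) (W : Set (Vec (m + 1) × ℝ)) (I : Set ℝ)
    (b : Vec (m + 1) → Vec (m + 1)) (v : Vec (m + 1)) (x : Vec (m + 1) × ℝ) : ℝ≥0∞ :=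
  (volume (closedBall (0 : Vec (m + 1)) r))⁻¹ *
    ({q : Vec (m + 1) × (Vec (m + 1) × ℝ) | (q.1, q.2.2) ∈ W ∧ q.2.2 ∈ I ∧
      ‖q.2.1 - (b q.1 + q.2.2 • q.1)‖ ≤ r}.indicator 1 (v, x))

theorem measurable_ker {r : ℝ} {W : Set (Vec (m + 1) × ℝ)} (hW : MeasurableSet W) {I : Set ℝ}
    (hI : MeasurableSet I) {b : Vec (m + 1) → Vec (m + 1)} (hb : Measurable b) :
    Measurable (Function.uncurry (ker r W I b)) := by
  have h1 : Measurable (fun q : Vec (m + 1) × (Vec (m + 1) × ℝ) =>
      ‖q.2.1 - (b q.1 + q.2.2 • q.1)‖) := by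
    apply Measurable.norm
    apply Measurable.sub
    · fun_prop
    · exact (hb.comp measurable_fst).add ((measurable_snd.comp measurable_snd).smul measurable_fst)
  have hs : MeasurableSet {q : Vec (m + 1) × (Vec (m + 1) × ℝ) | (q.1, q.2.2) ∈ W ∧ q.2.2 ∈ I ∧
      ‖q.2.1 - (b q.1 + q.2.2 • q.1)‖ ≤ r} := by
    have a1 : MeasurableSet {q : Vec (m + 1) × (Vec (m + 1) × ℝ) | (q.1, q.2.2) ∈ W} :=
      (measurable_fst.prodMk (measurable_snd.comp measurable_snd)) hW
    have a2 : MeasurableSet {q : Vec (m + 1) × (Vec (m + 1) × ℝ) | q.2.2 ∈ I} :=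
      (measurable_snd.comp measurable_snd) hI
    have a3 : MeasurableSet {q : Vec (m + 1) × (Vec (m + 1) × ℝ) |
      ‖q.2.1 - (b q.1 + q.2.2 • q.1)‖ ≤ r} := measurableSet_le h1 measurable_const
    exact a1.inter (a2.inter a3)
  exact (measurable_one.indicator hs).const_mul _

theorem ker_apply (r : ℝ) (W : Set (Vec (m + 1) × ℝ)) (I : Set ℝ)
    (b : Vec (m + 1) → Vec (m + 1)) (v : Vec (m + 1)) (y : Vec (m + 1)) (s : ℝ) :
    ker r W I b v (y, s) = (volume (closedBall (0 : Vec (m + 1)) r))⁻¹ *
      (W.indicator 1 (v, s) * (I.indicator 1 s *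
        (closedBall (b v + s • v) r).indicator 1 y)) := by
  unfold ker
  congr 1
  by_cases h1 : (v, s) ∈ W
  · by_cases h2 : s ∈ I
    · by_cases h3 : ‖y - (b v + s • v)‖ ≤ r
      · have h3' : y ∈ closedBall (b v + s • v) r := by rwa [mem_closedBall, dist_eq_norm]
        rw [indicator_of_mem (by exact ⟨h1, h2, h3⟩), indicator_of_mem h1, indicator_of_mem h2,
          indicator_of_mem h3']
        simp
      · have h3' : y ∉ closedBall (b v + s • v) r := by rwa [mem_closedBall, dist_eq_norm]
        rw [indicator_of_notMem (fun h => h3 h.2.2), indicator_of_notMem h3']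
        simp
    · rw [indicator_of_notMem (fun h => h2 h.2.1), indicator_of_notMem h2]
      simp
  · rw [indicator_of_notMem (fun h => h1 h.1), indicator_of_notMem h1]
    simp

theorem moll_eq {r : ℝ} {F : Vec (m + 1) × ℝ → ℝ≥0∞} (x : Vec (m + 1)) (s : ℝ) :
    moll r F (x, s) = (volume (closedBall (0 : Vec (m + 1)) r))⁻¹ *
      ∫⁻ y, (closedBall x r).indicator 1 y * F (y, s) := by
  unfold moll
  congr 1
  rw [← lintegral_indicator measurableSet_closedBall,
    ← lintegral_add_left_eq_self (fun y => (closedBall x r).indicator 1 y * F (y, s)) x]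
  apply lintegral_congr
  intro w
  by_cases hw : w ∈ closedBall (0 : Vec (m + 1)) r
  · have h1 : x + w ∈ closedBall x r := by
      rw [mem_closedBall, dist_eq_norm] at *
      simpa using hw
    rw [indicator_of_mem hw, indicator_of_mem h1]
    simp
  · have h1 : x + w ∉ closedBall x r := by
      rw [mem_closedBall, dist_eq_norm] at *
      simpa using hw
    rw [indicator_of_notMem hw, indicator_of_notMem h1]
    simp

theorem Op_ker {r : ℝ} {W : Set (Vec (m + 1) × ℝ)} (hW : MeasurableSet W) {I : Set ℝ}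
    (hI : MeasurableSet I) {b : Vec (m + 1) → Vec (m + 1)} (hb : Measurable b)
    {F : Vec (m + 1) × ℝ → ℝ≥0∞} (hF : Measurable F) (v : Vec (m + 1)) :
    Op volume (ker r W I b) F v
      = ∫⁻ s in I, W.indicator 1 (v, s) * moll r F (b v + s • v, s) := by
  unfold Op
  have hk : Measurable (ker r W I b v) :=
    (measurable_ker hW hI hb).comp measurable_prodMk_left
  have hkF : Measurable (fun x : Vec (m + 1) × ℝ => ker r W I b v x * F x) := hk.mul hF
  rw [Measure.volume_eq_prod, lintegral_prod_symm _ hkF.aemeasurable,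
    ← lintegral_indicator hI]
  apply lintegral_congr
  intro s
  have hFs : Measurable (fun y => F (y, s)) := hF.comp measurable_prodMk_right
  have hball : Measurable (fun y => (closedBall (b v + s • v) r).indicator
      (1 : Vec (m + 1) → ℝ≥0∞) y * F (y, s)) :=
    (measurable_one.indicator measurableSet_closedBall).mul hFs
  by_cases hs : s ∈ I
  · rw [indicator_of_mem hs, moll_eq]
    simp_rw [ker_apply]
    have e : ∀ y, (volume (closedBall (0 : Vec (m + 1)) r))⁻¹ *
      (W.indicator 1 (v, s) * (I.indicator 1 s *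
        (closedBall (b v + s • v) r).indicator 1 y)) * F (y, s)
        = ((volume (closedBall (0 : Vec (m + 1)) r))⁻¹ * W.indicator 1 (v, s)) *
          ((closedBall (b v + s • v) r).indicator 1 y * F (y, s)) := by
      intro y
      rw [indicator_of_mem hs]
      simp only [Pi.one_apply, one_mul]
      ring
    simp_rw [e]
    rw [lintegral_const_mul _ hball]
    ring
  · rw [indicator_of_notMem hs]
    simp_rw [ker_apply, indicator_of_notMem hs]
    simp

/-- The volume of the unit ball of `ℝ^(m+1)`. -/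
noncomputable def v1 (m : ℕ) : ℝ := (volume (closedBall (0 : Vec (m + 1)) 1)).toReal

theorem v1_pos (m : ℕ) : 0 < v1 m :=
  ENNReal.toReal_pos (vol_pos (d := m + 1) one_pos).ne' (vol_lt_top (d := m + 1) (r := 1)).ne

theorem vol_eq (m : ℕ) {r : ℝ} (hr : 0 < r) :
    volume (closedBall (0 : Vec (m + 1)) r) = ENNReal.ofReal (r ^ (m + 1) * v1 m) := by
  rw [vol_ball_scale hr, ENNReal.ofReal_mul (by positivity), ENNReal.ofReal_pow hr.le, v1,
    ENNReal.ofReal_toReal (vol_lt_top (d := m + 1) (r := 1)).ne]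

theorem ker_int {r : ℝ} (hr : 0 < r) {W : Set (Vec (m + 1) × ℝ)} (hW : MeasurableSet W) {I : Set ℝ}
    (hI : MeasurableSet I) {b : Vec (m + 1) → Vec (m + 1)} (hb : Measurable b)
    (v : Vec (m + 1)) :
    ∫⁻ x, ker r W I b v x = ∫⁻ s in I, W.indicator 1 (v, s) := by
  have h := Op_ker (r := r) hW hI hb (F := fun _ => 1) measurable_const v
  unfold Op at h
  simp only [mul_one] at h
  rw [h]
  have e : ∀ x : Vec (m + 1) × ℝ, moll r (fun _ => (1:ℝ≥0∞)) x = 1 := by
    intro x
    unfold moll
    rw [setLIntegral_one]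
    exact ENNReal.inv_mul_cancel (vol_pos hr).ne' vol_lt_top.ne
  simp_rw [e, mul_one]

/-- The pair bound for the kernel. -/
theorem ker_pair {κ : Vec (m + 1) → Fin N} (hκ : Measurable κ)
    {b : Vec (m + 1) → Vec (m + 1)} (hb : Measurable b) {W : Set (Vec (m + 1) × ℝ)}
    (hW : MeasurableSet W) {ρ r : ℝ} (hρ : 0 < ρ) (hr : 0 < r) (hF : Fr κ b ρ W)
    {I : Set ℝ} (hI : MeasurableSet I) (hI3 : volume I ≤ 3) (v : Vec (m + 1)) :
    ∫⁻ v' in {v' | ‖v‖ ≤ ‖v'‖}, (∫⁻ x, ker r W I b v x * ker r W I b v' x)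
        ∂(volume.restrict (closedBall (0 : Vec (m + 1)) 1))
      ≤ N * ENNReal.ofReal ((m + 1) * 2 ^ (m + 1) * (4 * r / ρ) ^ m *
        (16 * r * Real.log (1 + 3 / (8 * r))) / (r ^ (m + 1) * v1 m)) := by
  have hv1 := v1_pos m
  set V := volume (closedBall (0 : Vec (m + 1)) r) with hV
  have hV0 : V ≠ 0 := (vol_pos hr).ne'
  have hVt : V ≠ ∞ := vol_lt_top.ne
  have hQ := measurableSet_Near (r := r) hW hb v
  have hkm := measurable_ker (r := r) hW hI hb
  have h1 : ∀ v', ∫⁻ x, ker r W I b v x * ker r W I b v' x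
      ≤ V⁻¹ * ∫⁻ s in I, (Near r W b v).indicator 1 (v', s) := by
    intro v'
    have hk1 : Measurable (ker r W I b v) := hkm.comp measurable_prodMk_left
    have hk2 : Measurable (ker r W I b v') := hkm.comp measurable_prodMk_left
    have hQi : Measurable (fun s => (Near r W b v).indicator
        (1 : Vec (m + 1) × ℝ → ℝ≥0∞) (v', s)) :=
      (measurable_one.indicator hQ).comp measurable_prodMk_left
    have hkk : Measurable (fun x : Vec (m + 1) × ℝ => ker r W I b v x * ker r W I b v' x) :=
      hk1.mul hk2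
    rw [Measure.volume_eq_prod, lintegral_prod_symm _ hkk.aemeasurable,
      ← lintegral_indicator hI, ← lintegral_const_mul _ (hQi.indicator hI)]
    apply lintegral_mono
    intro s
    simp only
    by_cases hs : s ∈ I
    swap
    · simp_rw [ker_apply, indicator_of_notMem hs]
      simp
    rw [indicator_of_mem hs]
    by_cases hW' : (v', s) ∈ W
    swap
    · simp_rw [ker_apply, indicator_of_notMem hW']
      simp
    by_cases hnear : ‖(b v + s • v) - (b v' + s • v')‖ ≤ 2 * r
    · have hmem : (v', s) ∈ Near r W b v := ⟨hW', hnear⟩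
      rw [indicator_of_mem hmem]
      calc ∫⁻ y, ker r W I b v (y, s) * ker r W I b v' (y, s)
          ≤ ∫⁻ y, V⁻¹ * (V⁻¹ * (closedBall (b v + s • v) r).indicator 1 y) := by
            apply lintegral_mono
            intro y
            simp only
            rw [ker_apply, ker_apply]
            have a1 : ∀ (A : Set (Vec (m + 1) × ℝ)) (q : Vec (m + 1) × ℝ),
                A.indicator (1 : Vec (m + 1) × ℝ → ℝ≥0∞) q ≤ 1 := by
              intro A q
              exact indicator_le_self' (fun _ _ => zero_le) q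
            have a2 : ∀ (A : Set (Vec (m + 1))) (q : Vec (m + 1)),
                A.indicator (1 : Vec (m + 1) → ℝ≥0∞) q ≤ 1 := by
              intro A q
              exact indicator_le_self' (fun _ _ => zero_le) q
            have a3 : I.indicator (1 : ℝ → ℝ≥0∞) s ≤ 1 :=
              indicator_le_self' (fun _ _ => zero_le) s
            calc V⁻¹ * (W.indicator 1 (v, s) * (I.indicator 1 s *
                  (closedBall (b v + s • v) r).indicator 1 y)) *
                (V⁻¹ * (W.indicator 1 (v', s) * (I.indicator 1 s *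
                  (closedBall (b v' + s • v') r).indicator 1 y)))
                ≤ V⁻¹ * (1 * (1 * (closedBall (b v + s • v) r).indicator 1 y)) *
                  (V⁻¹ * (1 * (1 * 1))) := by
                  gcongr
                  · exact a1 _ _
                  · exact a1 _ _
                  · exact a2 _ _
              _ = _ := by ring
        _ = V⁻¹ * (V⁻¹ * V) := by
            have hc : V⁻¹ ≠ ∞ := ENNReal.inv_ne_top.2 hV0
            rw [lintegral_const_mul' _ _ hc, lintegral_const_mul' _ _ hc,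
              lintegral_indicator_one measurableSet_closedBall,
              Measure.addHaar_closedBall_center]
        _ = V⁻¹ * 1 := by rw [ENNReal.inv_mul_cancel hV0 hVt]
        _ = _ := by simp
    · have h0 : ∀ y, ker r W I b v (y, s) * ker r W I b v' (y, s) = 0 := by
        intro y
        rw [ker_apply, ker_apply]
        by_cases hy : y ∈ closedBall (b v + s • v) r
        · by_cases hy' : y ∈ closedBall (b v' + s • v') r
          · exfalso
            apply hnear
            rw [mem_closedBall, dist_eq_norm] at hy hy'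
            have e : (b v + s • v) - (b v' + s • v')
                = (y - (b v' + s • v')) - (y - (b v + s • v)) := by abel
            rw [e]
            refine (norm_sub_le _ _).trans ?_
            linarith
          · rw [indicator_of_notMem hy']; simp
        · rw [indicator_of_notMem hy]; simp
      simp_rw [h0]
      simp
  have hball : MeasurableSet (closedBall (0 : Vec (m + 1)) 1) := measurableSet_closedBall
  have hset : MeasurableSet {v' : Vec (m + 1) | ‖v‖ ≤ ‖v'‖} :=
    measurableSet_le measurable_const measurable_norm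
  have h2 := pair hκ hb hW hρ hr hF (I := I) hI3 v
  have hGm : Measurable (fun v' : Vec (m + 1) => ∫⁻ s in I, (Near r W b v).indicator
      (1 : Vec (m + 1) × ℝ → ℝ≥0∞) (v', s)) := (measurable_one.indicator hQ).lintegral_prod_right'
  calc ∫⁻ v' in {v' | ‖v‖ ≤ ‖v'‖}, (∫⁻ x, ker r W I b v x * ker r W I b v' x)
        ∂(volume.restrict (closedBall (0 : Vec (m + 1)) 1))
      ≤ ∫⁻ v' in {v' | ‖v‖ ≤ ‖v'‖}, (V⁻¹ * ∫⁻ s in I, (Near r W b v).indicator 1 (v', s))
        ∂(volume.restrict (closedBall (0 : Vec (m + 1)) 1)) := by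
        apply lintegral_mono
        intro v'
        exact h1 v'
    _ = V⁻¹ * ∫⁻ v' in {v' | ‖v‖ ≤ ‖v'‖ ∧ ‖v'‖ ≤ 1},
          ∫⁻ s in I, (Near r W b v).indicator 1 (v', s) := by
        rw [lintegral_const_mul _ hGm, Measure.restrict_restrict hset]
        congr 2
        congr 1
        ext v'
        simp
    _ ≤ V⁻¹ * (N * ENNReal.ofReal ((m + 1) * 2 ^ (m + 1) * (4 * r / ρ) ^ m *
        (16 * r * Real.log (1 + 3 / (8 * r))))) := by gcongr
    _ = _ := by
        rw [hV, vol_eq m hr, ← ENNReal.ofReal_inv_of_pos (by positivity), mul_comm, mul_assoc,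
          ← ENNReal.ofReal_mul' (by positivity)]
        congr 1

/-- The constant for one window. -/
noncomputable def cw (m : ℕ) (p : ℝ) : ℝ :=
  8 * p / (p - 2) * ((m + 1) * 2 ^ (m + 1) * 4 ^ m * 16 / v1 m) * 6 ^ (p - 2)

theorem cw_nonneg (m : ℕ) {p : ℝ} (hp : 2 < p) : 0 ≤ cw m p := by
  have := v1_pos m
  have : 0 < p - 2 := by linarith
  unfold cw
  positivity

/-- **The estimate for one window of heights.** -/
theorem window {κ : Vec (m + 1) → Fin N} (hκ : Measurable κ)
    {b : Vec (m + 1) → Vec (m + 1)} (hb : Measurable b) {W : Set (Vec (m + 1) × ℝ)}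
    (hW : MeasurableSet W) {ρ r : ℝ} (hρ : 0 < ρ) (hρ1 : ρ ≤ 1) (hr : 0 < r) (hFr : Fr κ b ρ W)
    {I : Set ℝ} (hI : MeasurableSet I) (hI3 : volume I ≤ 3)
    (hWI : ∀ v, ∫⁻ s in I, W.indicator 1 (v, s) ≤ ENNReal.ofReal (3 * ρ))
    {p : ℝ} (hp : (m:ℝ) + 2 ≤ p) (hm : 1 ≤ m)
    {F : Vec (m + 1) × ℝ → ℝ≥0∞} (hF : Measurable F) :
    ∫⁻ v in closedBall (0 : Vec (m + 1)) 1,
        (∫⁻ s in I, W.indicator 1 (v, s) * moll r F (b v + s • v, s)) ^ p
      ≤ ENNReal.ofReal (cw m p * N * Real.log (1 + 3 / (8 * r))) * ∫⁻ x, F x ^ p := by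
  have hm' : (1:ℝ) ≤ m := by exact_mod_cast hm
  have hp2 : 2 < p := by linarith
  have hv1 := v1_pos m
  have hL : 0 ≤ Real.log (1 + 3 / (8 * r)) := Real.log_nonneg (by
    have : 0 < 3 / (8 * r) := by positivity
    linarith)
  have hfin : IsFiniteMeasure ((volume : Measure (Vec (m + 1))).restrict
      (closedBall (0 : Vec (m + 1)) 1)) := ⟨by
    rw [Measure.restrict_apply_univ]; exact measure_closedBall_lt_top⟩
  have hR0 : ENNReal.ofReal (3 * ρ) ≠ 0 := by
    rw [Ne, ENNReal.ofReal_eq_zero, not_le]; positivity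
  have h := oschur (μ := (volume : Measure (Vec (m + 1) × ℝ)))
    (ν := (volume : Measure (Vec (m + 1))).restrict (closedBall (0 : Vec (m + 1)) 1))
    (measurable_ker (r := r) hW hI hb) (τ := fun v => ‖v‖) measurable_norm
    (R := ENNReal.ofReal (3 * ρ)) hR0 ENNReal.ofReal_ne_top
    (fun v => by rw [ker_int hr hW hI hb]; exact hWI v)
    (fun v => ker_pair hκ hb hW hρ hr hFr hI hI3 v) hp2 hF
  simp_rw [Op_ker hW hI hb hF] at h
  refine h.trans ?_
  gcongr
  -- the constants
  have e2 : (2 * ENNReal.ofReal (3 * ρ)) ^ (p - 2) = ENNReal.ofReal ((6 * ρ) ^ (p - 2)) := by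
    have : (2:ℝ≥0∞) = ENNReal.ofReal 2 := by simp
    rw [this, ← ENNReal.ofReal_mul (by norm_num), ENNReal.ofReal_rpow_of_nonneg (by positivity)
      (by linarith)]
    congr 2
    ring
  rw [e2]
  have eN : (N : ℝ≥0∞) = ENNReal.ofReal N := by simp
  have hp0 : 0 < p - 2 := by linarith
  rw [eN, ← ENNReal.ofReal_mul (by positivity), ← ENNReal.ofReal_mul (by positivity),
    ← ENNReal.ofReal_mul (by positivity)]
  apply ENNReal.ofReal_le_ofReal
  have hρp : ρ ^ (p - 2) ≤ ρ ^ m := by
    rw [← Real.rpow_natCast ρ m]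
    exact Real.rpow_le_rpow_of_exponent_ge hρ hρ1 (by linarith)
  have e3 : (4 * r / ρ) ^ m = 4 ^ m * r ^ m / ρ ^ m := by rw [div_pow, mul_pow]
  rw [e3, Real.mul_rpow (by norm_num) hρ.le]
  have hrm : 0 < r ^ m := by positivity
  have hρm : 0 < ρ ^ m := by positivity
  have e4 : 8 * p / (p - 2) * (↑N * ((↑m + 1) * 2 ^ (m + 1) * (4 ^ m * r ^ m / ρ ^ m) *
      (16 * r * Real.log (1 + 3 / (8 * r))) / (r ^ (m + 1) * v1 m))) * (6 ^ (p - 2) * ρ ^ (p - 2))
      = cw m p * N * Real.log (1 + 3 / (8 * r)) * (ρ ^ (p - 2) / ρ ^ m) := by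
    unfold cw
    rw [pow_succ r m]
    field_simp
  rw [e4]
  have e5 : ρ ^ (p - 2) / ρ ^ m ≤ 1 := by
    rw [div_le_one hρm]; exact hρp
  have hc : 0 ≤ cw m p * N * Real.log (1 + 3 / (8 * r)) := by
    have := cw_nonneg m hp2
    positivity
  nlinarith

end

end Pool.Agent.D0H26.WF
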